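import Pool.Agent.Helper34.TG.Hist
import Pool.Agent.Helper40.B4.Final
import Pool.Agent.MP_b4da01_an.Dichotomy

/-!
Module Block.  Lemma A in integral form.
-/

set_option autoImplicit false
set_option linter.unusedSectionVars false

open MeasureTheory Filter Topology
open scoped BigOperators

namespace Pool.Agent.Helper34.TG

universe u

open Pool.Agent.Helper40.B4 (av COT Predict Symm)

variable {X : Type u} [NormedAddCommGroup X] [NormedSpace ℝ X]

/-- integrals of finitely determined functions are uniform averages -/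
lemma FD.integral_eq_av {n N : ℕ} {f : G → ℝ} (h : FD n N f) :
    ∫ ω, f ω ∂μ = av (fun s : Fin n → Fin N → ZMod 2 => f (ext n N s)) := by
  rw [h.integral_eq]
  rfl

/-- extension by zero of a row -/
def ext1 (N : ℕ) (w : Fin N → ZMod 2) : ℕ → ZMod 2 := fun i => if h : i < N then w ⟨i, h⟩ else 0

lemma ext_row {n N : ℕ} (s : Fin n → Fin N → ZMod 2) (k : Fin n) :
    ext n N s k = ext1 N (s k) := by
  funext i
  unfold ext ext1
  by_cases h : i < N
  · simp [h]
  · simp [h]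

/-- flip of coordinate zero of a finite row -/
def flipPerm (N : ℕ) (hN : 0 < N) : Equiv.Perm (Fin N → ZMod 2) where
  toFun w := fun i => if (i : ℕ) = 0 then w ⟨0, hN⟩ + 1 else w i
  invFun w := fun i => if (i : ℕ) = 0 then w ⟨0, hN⟩ + 1 else w i
  left_inv := by
    intro w
    funext i
    by_cases hi : (i : ℕ) = 0
    · have h2 : i = ⟨0, hN⟩ := Fin.ext hi
      subst h2
      have h3 : ∀ z : ZMod 2, z + 1 + 1 = z := by decide
      simp [h3]
    · simp [hi]
  right_inv := by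
    intro w
    funext i
    by_cases hi : (i : ℕ) = 0
    · have h2 : i = ⟨0, hN⟩ := Fin.ext hi
      subst h2
      have h3 : ∀ z : ZMod 2, z + 1 + 1 = z := by decide
      simp [h3]
    · simp [hi]

lemma ext1_flip (N : ℕ) (hN : 0 < N) (w : Fin N → ZMod 2) :
    ext1 N (flipPerm N hN w) = flip0 (ext1 N w) := by
  funext i
  unfold ext1 flipPerm flip0
  by_cases hi : i = 0
  · subst hi; simp [hN]
  · by_cases h : i < N
    · simp [hi, h]
    · simp [hi, h]

/-- the moves of a history on the finite space -/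
def Hist.mf (h : Hist X) : (k : Fin h.n) → (Fin h.N → ZMod 2) → X := fun k w => h.m k (ext1 h.N w)

open Classical in
/-- the indicator functions of a history on the finite space -/
noncomputable def Hist.ef (h : Hist X) : Fin h.n → (Fin h.n → Fin h.N → ZMod 2) → ℝ :=
  fun k s => if ext h.n h.N s ∈ h.E k then 1 else 0

lemma Hist.Valid.symm_mf {h : Hist X} {a : ℝ} (hv : h.Valid a) :
    Symm (K := Fin h.n) (Ω := fun _ => Fin h.N → ZMod 2) h.mf := by
  intro k
  refine ⟨flipPerm h.N hv.Npos, fun w => ?_⟩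
  unfold Hist.mf
  rw [ext1_flip]
  exact hv.symm k k.2 _

lemma Hist.Valid.predict_ef {h : Hist X} {a : ℝ} (hv : h.Valid a) :
    Predict (K := Fin h.n) (Ω := fun _ => Fin h.N → ZMod 2) h.ef := by
  intro k p q hpq
  unfold Hist.ef
  have h1 : (ext h.n h.N p ∈ h.E k) = (ext h.n h.N q ∈ h.E k) := by
    apply hv.fd k k.2
    intro k' hk' i hi
    rw [ext_apply_of_lt _ (hk'.trans k.2) hi, ext_apply_of_lt _ (hk'.trans k.2) hi]
    rw [hpq ⟨k', hk'.trans k.2⟩ hk']
  by_cases h2 : ext h.n h.N p ∈ h.E k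
  · rw [if_pos h2, if_pos (h1 ▸ h2)]
  · rw [if_neg h2, if_neg (fun h3 => h2 (h1.symm ▸ h3))]

lemma Hist.ef_mem (h : Hist X) (k : Fin h.n) (s : Fin h.n → Fin h.N → ZMod 2) :
    0 ≤ h.ef k s ∧ h.ef k s ≤ 1 := by
  unfold Hist.ef
  split_ifs <;> simp

lemma Hist.abs_ef_le (h : Hist X) (k : Fin h.n) (s : Fin h.n → Fin h.N → ZMod 2) :
    |h.ef k s| ≤ 1 := by
  unfold Hist.ef
  split_ifs <;> simp

/-- probability of the active sets -/
lemma Hist.Valid.av_ef {h : Hist X} {a : ℝ} (hv : h.Valid a) (k : Fin h.n) :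
    av (fun s : Fin h.n → Fin h.N → ZMod 2 => h.ef k s) = μ.real (h.E k) := by
  classical
  have hfd : FD h.n h.N (fun ω => ω ∈ h.E k) := (hv.fd k k.2).mono k.2.le le_rfl
  have hfi : FD h.n h.N ((h.E k).indicator (fun _ => (1 : ℝ))) := FD.indicator hfd (FD.const 1)
  have h1 := hfi.integral_eq_av
  rw [integral_indicator hfd.measurableSet] at h1
  simp only [integral_const, smul_eq_mul, mul_one, measureReal_restrict_apply_univ] at h1
  rw [h1]
  congr 1

lemma Hist.Valid.fd_m {h : Hist X} {a : ℝ} (hv : h.Valid a) {k : ℕ} (hk : k < h.n) :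
    FD h.n h.N (fun ω => h.m k (ω k)) := by
  intro ω ω' hh
  exact hv.col k hk _ _ fun i hi => hh k hk i hi

lemma Hist.Valid.fd_E {h : Hist X} {a : ℝ} (hv : h.Valid a) {k : ℕ} (hk : k < h.n) :
    FD h.n h.N (fun ω => ω ∈ h.E k) := (hv.fd k hk).mono hk.le le_rfl

/-- sums over sets of moves, on the finite space -/
lemma Hist.Valid.integral_sum_m {h : Hist X} {a : ℝ} (hv : h.Valid a) (b : Finset ℕ)
    (hb : b ⊆ Finset.range h.n) :
    ∫ ω, ‖∑ k ∈ b, h.m k (ω k)‖ ∂μ
      = av (fun s : Fin h.n → Fin h.N → ZMod 2 =>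
        ‖∑ k ∈ Finset.univ.filter (fun k : Fin h.n => (k : ℕ) ∈ b), h.mf k (s k)‖) := by
  have hfd : FD h.n h.N (fun ω : G => ‖∑ k ∈ b, h.m k (ω k)‖) :=
    FD.comp (FD.sum fun k hk => hv.fd_m (Finset.mem_range.1 (hb hk))) norm
  rw [hfd.integral_eq_av]
  refine congrArg av (funext fun s => ?_)
  congr 1
  refine (Finset.sum_bij (fun (k : Fin h.n) _ => (k : ℕ)) ?_ ?_ ?_ ?_).symm
  · intro k hk; exact (Finset.mem_filter.1 hk).2
  · intro k _ k' _ hkk; exact Fin.ext hkk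
  · intro k hk
    exact ⟨⟨k, Finset.mem_range.1 (hb hk)⟩, Finset.mem_filter.2 ⟨Finset.mem_univ _, hk⟩, rfl⟩
  · intro k _
    unfold Hist.mf
    rw [ext_row]

lemma Hist.Valid.integral_sum_E {h : Hist X} {a : ℝ} (hv : h.Valid a) (b : Finset ℕ)
    (hb : b ⊆ Finset.range h.n) :
    ∫ ω, ‖∑ k ∈ b, (h.E k).indicator (fun ω => h.m k (ω k)) ω‖ ∂μ
      = av (fun s : Fin h.n → Fin h.N → ZMod 2 =>
        ‖∑ k ∈ Finset.univ.filter (fun k : Fin h.n => (k : ℕ) ∈ b), h.ef k s • h.mf k (s k)‖) := by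
  classical
  have hfd : FD h.n h.N (fun ω : G => ‖∑ k ∈ b, (h.E k).indicator (fun ω => h.m k (ω k)) ω‖) :=
    FD.comp (FD.sum fun k hk => FD.indicator (hv.fd_E (Finset.mem_range.1 (hb hk)))
      (hv.fd_m (Finset.mem_range.1 (hb hk)))) norm
  rw [hfd.integral_eq_av]
  refine congrArg av (funext fun s => ?_)
  congr 1
  refine (Finset.sum_bij (fun (k : Fin h.n) _ => (k : ℕ)) ?_ ?_ ?_ ?_).symm
  · intro k hk; exact (Finset.mem_filter.1 hk).2
  · intro k _ k' _ hkk; exact Fin.ext hkk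
  · intro k hk
    exact ⟨⟨k, Finset.mem_range.1 (hb hk)⟩, Finset.mem_filter.2 ⟨Finset.mem_univ _, hk⟩, rfl⟩
  · intro k _
    unfold Hist.mf Hist.ef
    by_cases hk : ext h.n h.N s ∈ h.E k
    · rw [Set.indicator_of_mem hk, if_pos hk, one_smul, ext_row]
    · rw [Set.indicator_of_notMem hk, if_neg hk, zero_smul]

/-- contraction -/
theorem block_le (h : Hist X) {a : ℝ} (hv : h.Valid a) (b : Finset ℕ)
    (hb : b ⊆ Finset.range h.n) :
    ∫ ω, ‖∑ k ∈ b, (h.E k).indicator (fun ω => h.m k (ω k)) ω‖ ∂μ ≤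
      ∫ ω, ‖∑ k ∈ b, h.m k (ω k)‖ ∂μ := by
  rw [hv.integral_sum_m b hb, hv.integral_sum_E b hb]
  exact Pool.Agent.Helper40.B4.av_block_le (K := Fin h.n) (Ω := fun _ => Fin h.N → ZMod 2) h.mf
    hv.symm_mf h.ef hv.predict_ef h.abs_ef_le _

lemma linftyFinRep_imp (h : B4da01.LinftyFinRep X) : ContainsLinftyUniformly X := by
  refine ⟨3, fun n => ?_⟩
  obtain ⟨x, hx⟩ := h n (1 / 2) (by norm_num)
  refine ⟨fun i => (2 : ℝ) • x i, fun a => ?_⟩
  have h1 : ∑ i, a i • (2 : ℝ) • x i = (2 : ℝ) • ∑ i, a i • x i := by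
    rw [Finset.smul_sum]
    exact Finset.sum_congr rfl fun i _ => smul_comm _ _ _
  rw [h1, norm_smul, Real.norm_of_nonneg (by norm_num : (0 : ℝ) ≤ 2)]
  obtain ⟨h2, h3⟩ := hx a
  constructor <;> linarith

theorem exists_blockProp (hX : ¬ ContainsLinftyUniformly X) :
    ∃ a : ℝ, 0 < a ∧ a < 1 ∧ BlockProp X a := by
  classical
  obtain ⟨k0, hk0, ρ, hρ, hcot⟩ := B4da01.exists_cot_helper40 (X := X)
    (fun h => hX (linftyFinRep_imp h))
  have : Nonempty (Fin k0) := ⟨⟨0, hk0⟩⟩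
  obtain ⟨a, ha, hC1⟩ := Pool.Agent.Helper40.B4.C1 hρ hcot
  refine ⟨min a (1 / 2), lt_min ha (by norm_num), lt_of_le_of_lt (min_le_right _ _) (by norm_num), ?_⟩
  intro η B hη
  obtain ⟨l, hl⟩ := pow_unbounded_of_one_lt (2 * B / η) hρ
  obtain ⟨κ, i1, i2, i3, -, hcotl⟩ := Pool.Agent.Helper40.B4.COT.pow (zero_le_one.trans hρ.le)
    hcot le_rfl l
  refine ⟨Fintype.card κ, ?_⟩
  intro h x₀ hv hB b hb hdis
  by_contra hcon
  push Not at hcon
  let e : κ ≃ Fin (Fintype.card κ) := Fintype.equivFin κ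
  let bb : κ → Finset (Fin h.n) := fun i => Finset.univ.filter (fun k : Fin h.n => (k : ℕ) ∈ b (e i))
  have hbb : ∀ i j, i ≠ j → Disjoint (bb i) (bb j) := by
    intro i j hij
    rw [Finset.disjoint_left]
    intro k hk hk'
    have h1 := hdis (e i) (e j) (fun h => hij (e.injective h))
    exact Finset.disjoint_left.1 h1 (Finset.mem_filter.1 hk).2 (Finset.mem_filter.1 hk').2
  have h1 := Pool.Agent.Helper40.B4.av_blocks (K := Fin h.n) (Ω := fun _ => Fin h.N → ZMod 2)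
    hcotl h.mf hv.symm_mf bb hbb
  have h2 : η ≤ av (fun i : κ => av (fun s : Fin h.n → Fin h.N → ZMod 2 =>
      ‖∑ k ∈ bb i, h.mf k (s k)‖)) := by
    rw [← Pool.Agent.Helper40.B4.av_const (α := κ) η]
    refine Pool.Agent.Helper40.B4.av_le_av fun i => ?_
    have h3 := hcon (e i)
    rw [hv.integral_sum_m (b (e i)) (hb (e i))] at h3
    exact h3
  have h4 := hC1 (Fin h.n) (fun _ => Fin h.N → ZMod 2) h.mf hv.symm_mf h.ef hv.predict_ef h.ef_mem
    (fun k => by
      rw [hv.av_ef k]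
      have := hv.prob k k.2
      have h5 : min a (1 / 2) ≤ a := min_le_left _ _
      linarith)
  have h5 : av (fun s : Fin h.n → Fin h.N → ZMod 2 => ‖∑ k, h.ef k s • h.mf k (s k)‖) ≤ B := by
    refine le_trans (le_of_eq ?_) hB
    have h6 := hv.integral_sum_E (Finset.range h.n) subset_rfl
    have h7 : ∀ ω, h.T x₀ ω - x₀
        = ∑ k ∈ Finset.range h.n, (h.E k).indicator (fun ω => h.m k (ω k)) ω := by
      intro ω; unfold Hist.T; abel
    simp only [h7]
    rw [h6]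
    refine congrArg av (funext fun s => ?_)
    congr 1
    refine Finset.sum_congr ?_ fun _ _ => rfl
    ext k
    simp
  have hR : 0 < ρ ^ l := pow_pos (zero_lt_one.trans hρ) l
  have h8 : ρ ^ l * η ≤ 2 * B := by
    calc ρ ^ l * η ≤ _ := mul_le_mul_of_nonneg_left h2 hR.le
      _ ≤ _ := h1
      _ ≤ _ := h4
      _ ≤ 2 * B := by linarith
  rw [div_lt_iff₀ hη] at hl
  linarith

end Pool.Agent.Helper34.TG
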