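import Mathlib

/-!
MP_b4da01_an: twice Gateaux differentiable norms and superreflexivity.
Definitions used in the statement of the result.
-/

set_option autoImplicit false

open Filter Topology

namespace Pool.Agent.Helper34.TG

universe u v

/-- `N` is a norm on `X` equivalent to the given one. -/
structure IsEquivNorm {X : Type u} [NormedAddCommGroup X] [NormedSpace ℝ X] (N : X → ℝ) : Prop where
  add_le : ∀ x y, N (x + y) ≤ N x + N y
  smul : ∀ (c : ℝ) x, N (c • x) = |c| * N x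
  lower : ∃ c > 0, ∀ x, c * ‖x‖ ≤ N x
  upper : ∃ C > 0, ∀ x, N x ≤ C * ‖x‖

/-- `φ` is twice Gateaux differentiable at `x`: there are a neighbourhood of `x` in which `φ` has a
Gateaux derivative `φ' y ∈ X*`, and a continuous symmetric bilinear form `B` with
`lim_{t ↓ 0} (φ' (x + t k) - φ' x) h / t = B h k` for all `h`, `k`. -/
def TwiceGateauxAt {X : Type u} [NormedAddCommGroup X] [NormedSpace ℝ X] (φ : X → ℝ) (x : X) :
    Prop :=
  ∃ (φ' : X → (X →L[ℝ] ℝ)) (B : X →L[ℝ] X →L[ℝ] ℝ),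
    (∀ᶠ y in 𝓝 x, ∀ h : X,
      Tendsto (fun t : ℝ => t⁻¹ * (φ (y + t • h) - φ y)) (𝓝[≠] 0) (𝓝 (φ' y h))) ∧
    (∀ h k : X, Tendsto (fun t : ℝ => t⁻¹ * (φ' (x + t • k) h - φ' x h)) (𝓝[>] 0) (𝓝 (B h k))) ∧
    (∀ h k : X, B h k = B k h)

/-- `X` admits a twice Gateaux differentiable norm. -/
def AdmitsTwiceGateauxNorm (X : Type u) [NormedAddCommGroup X] [NormedSpace ℝ X] : Prop :=
  ∃ N : X → ℝ, IsEquivNorm N ∧ ∀ x : X, x ≠ 0 → TwiceGateauxAt N x

/-- `Y` is finitely representable in `X`. -/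
def FinitelyRepresentable (Y : Type v) [NormedAddCommGroup Y] [NormedSpace ℝ Y]
    (X : Type u) [NormedAddCommGroup X] [NormedSpace ℝ X] : Prop :=
  ∀ (F : Submodule ℝ Y), FiniteDimensional ℝ F → ∀ ε : ℝ, 0 < ε →
    ∃ T : F →ₗ[ℝ] X, ∀ y : F, ‖y‖ ≤ ‖T y‖ ∧ ‖T y‖ ≤ (1 + ε) * ‖y‖

/-- reflexivity: the canonical map into the double dual is onto. -/
def IsReflexive (Y : Type v) [NormedAddCommGroup Y] [NormedSpace ℝ Y] : Prop :=
  Function.Surjective (NormedSpace.inclusionInDoubleDual ℝ Y)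

/-- `X` is superreflexive: every Banach space finitely representable in `X` is reflexive. -/
def IsSuperreflexive (X : Type u) [NormedAddCommGroup X] [NormedSpace ℝ X] : Prop :=
  ∀ (Y : Type v) [NormedAddCommGroup Y] [NormedSpace ℝ Y] [CompleteSpace Y],
    FinitelyRepresentable Y X → IsReflexive Y

/-- `X` contains the spaces `ℓ_∞^n` uniformly (the norm of `Fin n → ℝ` is the maximum norm). -/
def ContainsLinftyUniformly (X : Type u) [NormedAddCommGroup X] [NormedSpace ℝ X] : Prop :=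
  ∃ C : ℝ, ∀ n : ℕ, ∃ x : Fin n → X, ∀ a : Fin n → ℝ,
    ‖a‖ ≤ ‖∑ i, a i • x i‖ ∧ ‖∑ i, a i • x i‖ ≤ C * ‖a‖

end Pool.Agent.Helper34.TG
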