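import Pool.Agent.Helper34.TG.Stage

/-!
Module Final.  See section 6 of MP_b4da01_an.md.
-/

set_option autoImplicit false

open MeasureTheory Filter Topology
open scoped BigOperators

namespace Pool.Agent.Helper34.TG

universe u

/-- dependent choice -/
lemma exists_seq_of_step {α : Type*} (P : ℕ → α → Prop) (R : ℕ → α → α → Prop) (a₀ : α)
    (h0 : P 0 a₀) (h : ∀ n a, P n a → ∃ b, P (n + 1) b ∧ R n a b) :
    ∃ f : ℕ → α, f 0 = a₀ ∧ (∀ n, P n (f n)) ∧ ∀ n, R n (f n) (f (n + 1)) := by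
  choose! g hg using h
  let f : ℕ → α := fun n => Nat.rec a₀ (fun n a => g n a) n
  have hf0 : f 0 = a₀ := rfl
  have hfs : ∀ n, f (n + 1) = g n (f n) := fun n => rfl
  have hP : ∀ n, P n (f n) := by
    intro n
    induction n with
    | zero => rw [hf0]; exact h0
    | succ n ih => rw [hfs]; exact (hg n (f n) ih).1
  refine ⟨f, hf0, hP, fun n => ?_⟩
  rw [hfs]
  exact (hg n (f n) (hP n)).2

variable {X : Type u} [NormedAddCommGroup X] [NormedSpace ℝ X]

/-- state after a stage -/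
structure St (X : Type u) where
  h : Hist X
  D : Finset X
  θ : ℝ
  Γ : Set G

/-- difference of positions -/
lemma Hist.T_sub {h₁ h₂ h : Hist X} (h1 : h₁.Ext h₂) (h2 : h₂.Ext h) (x₀ : X) (ω : G) :
    h₂.T x₀ ω - h₁.T x₀ ω =
      ∑ k ∈ Finset.Ico h₁.n h₂.n, (h.E k).indicator (fun ω => h.m k (ω k)) ω := by
  have e2 : h₂.T x₀ ω = x₀ + ∑ k ∈ Finset.range h₂.n, (h.E k).indicator
      (fun ω => h.m k (ω k)) ω := by
    unfold Hist.T
    congr 1
    refine Finset.sum_congr rfl fun k hk => ?_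
    rw [Finset.mem_range] at hk
    rw [h2.m_eq k hk, h2.E_eq k hk]
  have e1 : h₁.T x₀ ω = x₀ + ∑ k ∈ Finset.range h₁.n, (h.E k).indicator
      (fun ω => h.m k (ω k)) ω := by
    unfold Hist.T
    congr 1
    refine Finset.sum_congr rfl fun k hk => ?_
    rw [Finset.mem_range] at hk
    rw [(h1.trans h2).m_eq k hk, (h1.trans h2).E_eq k hk]
  rw [e1, e2, Finset.sum_Ico_eq_sub _ h1.n_le]
  abel

/-- infinitely many stages, `L_1`-convergence along the way -/
theorem exists_bad_point [CompleteSpace X] (htree : HasTrees X) (φ : Seminorm ℝ X)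
    (hφ : ∀ x, φ x ≤ ‖x‖) (c₀ : ℝ) (hc₀ : 0 < c₀) (hφ' : ∀ x, c₀ * ‖x‖ ≤ φ x)
    (a : ℝ) (ha0 : 0 < a) (ha1 : a < 1) (hB : BlockProp X a)
    (hblock : ∀ h : Hist X, h.Valid a → ∀ b ⊆ Finset.range h.n,
      ∫ ω, ‖∑ k ∈ b, (h.E k).indicator (fun ω => h.m k (ω k)) ω‖ ∂μ ≤
        ∫ ω, ‖∑ k ∈ b, h.m k (ω k)‖ ∂μ)
    (x₀ : X) (hx₀ : x₀ ≠ 0) :
    ∃ x : X, x ≠ 0 ∧ ∀ C : ℝ, ∃ d : X, C * ‖d‖ ^ 2 < sd φ x d := by
  classical
  have hφx₀ : 0 < φ x₀ := lt_of_lt_of_le (by
    have := norm_pos_iff.2 hx₀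
    positivity) (hφ' x₀)
  -- the sequence of states
  obtain ⟨f, hf0, hP, hR⟩ := exists_seq_of_step
    (fun (_ : ℕ) (s : St X) => s.h.Valid a ∧ 0 < s.θ ∧ (0 : X) ∈ s.D)
    (fun (j : ℕ) (s s' : St X) => s.h.Ext s'.h ∧
      (∀ ω, ∀ q ∈ s.D, φ (s.h.T x₀ ω + q) - s.θ * (1 / 4) ^ j / 64 ≤ φ (s'.h.T x₀ ω + q)) ∧
      (∫ ω, (φ (s'.h.T x₀ ω) - φ (s.h.T x₀ ω)) ∂μ ≤ 3 * (s.θ * (1 / 4) ^ j / 64)) ∧
      MeasurableSet s'.Γ ∧ a ≤ μ.real s'.Γ ∧ s'.θ ≤ s.θ ∧ s.D ⊆ s'.D ∧
      ∀ ω ∈ s'.Γ, ∃ d ∈ s'.D, -d ∈ s'.D ∧ (j : ℝ) * ‖d‖ ^ 2 ≤ sd φ (s'.h.T x₀ ω) d ∧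
        s'.θ ≤ sd φ (s'.h.T x₀ ω) d)
    (⟨⟨0, 1, fun _ _ => 0, fun _ => Set.univ⟩, {0}, min 1 (φ x₀), ∅⟩ : St X)
    ⟨⟨fun k hk => absurd hk (Nat.not_lt_zero k), fun k hk => absurd hk (Nat.not_lt_zero k),
      fun k hk => absurd hk (Nat.not_lt_zero k), fun k hk => absurd hk (Nat.not_lt_zero k),
      Nat.one_pos⟩, lt_min one_pos hφx₀, Finset.mem_singleton_self 0⟩
    (by
      rintro j s ⟨hv, hθ, h0⟩
      have hpos : 0 < s.θ * (1 / 4) ^ j / 64 := by positivity
      obtain ⟨h', Γ, D', τ, hext, hv', hfar, hcost, hΓ, hμ, hτ, hgain⟩ :=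
        stage htree φ hφ c₀ hc₀ hφ' a ha0 ha1 hB x₀ s.h hv s.D (s.θ * (1 / 4) ^ j / 64) j
          (s.θ * (1 / 4) ^ j / 64) hpos hpos
      refine ⟨⟨h', s.D ∪ (D' ∪ D'.image (fun x => -x)), min s.θ τ, Γ⟩,
        ⟨hv', lt_min hθ hτ, Finset.mem_union_left _ h0⟩, hext, hfar, hcost, hΓ.measurableSet, hμ,
        min_le_left _ _, Finset.subset_union_left, ?_⟩
      intro ω hω
      obtain ⟨d, hd, hd1, hd2⟩ := hgain ω hω
      refine ⟨d, ?_, ?_, hd1, (min_le_right _ _).trans hd2⟩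
      · exact Finset.mem_union_right _ (Finset.mem_union_left _ hd)
      · exact Finset.mem_union_right _ (Finset.mem_union_right _
          (Finset.mem_image_of_mem _ hd)))
  set T : ℕ → G → X := fun j => (f j).h.T x₀ with hT
  have hTfd : ∀ j, FD (f j).h.n (f j).h.N (T j) := fun j => (hP j).1.fd_T x₀
  have hT0 : ∀ ω, T 0 ω = x₀ := by
    intro ω
    simp [hT, hf0, Hist.T]
  have hθanti : Antitone fun j => (f j).θ := antitone_nat_of_succ_le fun j => (hR j).2.2.2.2.2.1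
  have hθ0 : (f 0).θ = min 1 (φ x₀) := by rw [hf0]
  have hθ1 : ∀ j, (f j).θ ≤ 1 := fun j => (hθanti (Nat.zero_le j)).trans
    (hθ0.le.trans (min_le_left _ _))
  have hθφ : ∀ j, (f j).θ ≤ φ x₀ := fun j => (hθanti (Nat.zero_le j)).trans
    (hθ0.le.trans (min_le_right _ _))
  have hDmono : Monotone fun j => (f j).D := monotone_nat_of_le_succ fun j => (hR j).2.2.2.2.2.2.1
  have hExt : ∀ i j, i ≤ j → (f i).h.Ext (f j).h := by
    intro i j hij
    induction j, hij using Nat.le_induction with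
    | base => exact Hist.Ext.refl _
    | succ j _ ih => exact ih.trans (hR j).1
  have hφfd : ∀ j, FD (f j).h.n (f j).h.N (fun ω => φ (T j ω)) := fun j => (hTfd j).comp φ
  have hφint : ∀ j, Integrable (fun ω => φ (T j ω)) μ := fun j => (hφfd j).integrable
  -- the common box of two stages
  have hdfd : ∀ i j, FD ((f i).h.n + (f j).h.n) ((f i).h.N + (f j).h.N)
      (fun ω => ‖T j ω - T i ω‖) := by
    intro i j
    exact ((hTfd j).mono (by omega) (by omega)).comp₂ ((hTfd i).mono (by omega) (by omega))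
      (fun x y => ‖x - y‖)
  -- cost
  have hcost : ∀ j, ∫ ω, φ (T j ω) ∂μ ≤ φ x₀ + (1 - (1 / 2) ^ j) := by
    intro j
    induction j with
    | zero => simp [hT0]
    | succ j ih =>
      have h1 := (hR j).2.2.1
      rw [integral_sub (hφint (j + 1)) (hφint j)] at h1
      have h2 : (f j).θ * (1 / 4) ^ j / 64 ≤ (1 / 2) ^ j / 64 := by
        have : (f j).θ * (1 / 4) ^ j ≤ 1 * (1 / 2) ^ j := by
          apply mul_le_mul (hθ1 j) _ (by positivity) zero_le_one
          exact pow_le_pow_left₀ (by norm_num) (by norm_num) j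
        linarith
      have h3 : ((1 : ℝ) / 2) ^ (j + 1) = (1 / 2) ^ j / 2 := by rw [pow_succ]; ring
      have h4 : (0 : ℝ) < (1 / 2) ^ j := by positivity
      rw [h3]
      linarith
  have hbound : ∀ j, ∫ ω, ‖T j ω - x₀‖ ∂μ ≤ (φ x₀ + 1) / c₀ + ‖x₀‖ := by
    intro j
    have h1 : ∫ ω, ‖T j ω - x₀‖ ∂μ ≤ ∫ ω, (φ (T j ω) / c₀ + ‖x₀‖) ∂μ := by
      apply integral_mono ((hTfd j).comp (fun x => ‖x - x₀‖)).integrable
        (((hφint j).div_const _).add (integrable_const _))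
      intro ω
      have h2 := norm_sub_le (T j ω) x₀
      have h3 : ‖T j ω‖ ≤ φ (T j ω) / c₀ := by
        rw [le_div_iff₀ hc₀]
        linarith [hφ' (T j ω)]
      simp only [Pi.add_apply]
      linarith
    rw [integral_add ((hφint j).div_const _) (integrable_const _), integral_div] at h1
    simp only [integral_const, probReal_univ, one_smul] at h1
    have h2 : (∫ ω, φ (T j ω) ∂μ) / c₀ ≤ (φ x₀ + 1) / c₀ := by
      have h3 := hcost j
      have h4 : (0 : ℝ) < (1 / 2) ^ j := by positivity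
      gcongr
      linarith
    linarith
  -- Cauchy in L_1
  have hCauchy : ∀ η : ℝ, 0 < η → ∃ J, ∀ j, J ≤ j → ∀ i, j ≤ i →
      ∫ ω, ‖T i ω - T j ω‖ ∂μ < η := by
    intro η hη
    obtain ⟨c, hc⟩ := hB η ((φ x₀ + 1) / c₀ + ‖x₀‖) hη
    by_contra hcon
    push Not at hcon
    choose js hjs is his hjis using hcon
    -- the sequence of starting points
    obtain ⟨Jk, -, -, hJk⟩ := exists_seq_of_step (fun _ _ : ℕ => True)
      (fun _ J J' => J' = is J) 0 trivial (fun _ J _ => ⟨is J, trivial, rfl⟩)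
    have hJmono : Monotone Jk := monotone_nat_of_le_succ fun k => by
      rw [hJk k]; exact (hjs _).trans (his _)
    have hlt : ∀ k k', k < k' → is (Jk k) ≤ js (Jk k') := by
      intro k k' hkk
      rw [← hJk k]
      exact (hJmono hkk).trans (hjs _)
    have hnmono : ∀ i j, i ≤ j → (f i).h.n ≤ (f j).h.n := fun i j hij => (hExt i j hij).n_le
    set I := is (Jk c) with hI
    have hIle : ∀ k : Fin c, is (Jk k) ≤ I := fun k =>
      (hlt k c k.2).trans (his _)
    obtain ⟨k, hk⟩ := hc (f I).h x₀ (hP I).1 (hbound I)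
      (fun k => Finset.Ico (f (js (Jk k))).h.n (f (is (Jk k))).h.n)
      (by
        intro k x hx
        rw [Finset.mem_Ico] at hx
        rw [Finset.mem_range]
        exact hx.2.trans_le (hnmono _ _ (hIle k)))
      (by
        intro k k' hkk
        rw [Finset.disjoint_left]
        intro x hx hx'
        rw [Finset.mem_Ico] at hx hx'
        rcases lt_or_gt_of_ne hkk with h | h
        · have := hnmono _ _ (hlt k k' h)
          omega
        · have := hnmono _ _ (hlt k' k h)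
          omega)
    have h1 := hjis (Jk k)
    have h2 : ∀ ω, T (is (Jk k)) ω - T (js (Jk k)) ω =
        ∑ l ∈ Finset.Ico (f (js (Jk k))).h.n (f (is (Jk k))).h.n,
          ((f I).h.E l).indicator (fun ω => (f I).h.m l (ω l)) ω := fun ω =>
      Hist.T_sub (hExt _ _ (his _)) (hExt _ _ (hIle k)) x₀ ω
    simp only [h2] at h1
    have h3 := hblock (f I).h (hP I).1
      (Finset.Ico (f (js (Jk k))).h.n (f (is (Jk k))).h.n) (by
        intro x hx
        rw [Finset.mem_Ico] at hx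
        rw [Finset.mem_range]
        exact hx.2.trans_le (hnmono _ _ (hIle k)))
    linarith
  -- a fast subsequence
  choose J hJ using fun k : ℕ => hCauchy ((1 / 4) ^ k) (by positivity)
  obtain ⟨σ, -, hσ1, hσ2⟩ := exists_seq_of_step (fun k j => J k ≤ j)
      (fun _ j j' => j ≤ j' ∧ j < j') (J 0) le_rfl
      (fun k j _ => ⟨max (J (k + 1)) (j + 1), le_max_left _ _,
        (Nat.le_succ j).trans (le_max_right _ _), (Nat.lt_succ_self j).trans_le (le_max_right _ _)⟩)
  have hσmono : StrictMono σ := strictMono_nat_of_lt_succ fun k => (hσ2 k).2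
  have hBC1 : ∀ᵐ ω ∂μ, ∀ᶠ k in atTop,
      ω ∉ {ω : G | (1 / 2 : ℝ) ^ k ≤ ‖T (σ (k + 1)) ω - T (σ k) ω‖} := by
    apply ae_eventually_notMem
    apply ne_top_of_le_ne_top (b := ∑' k : ℕ, ENNReal.ofReal ((1 / 2) ^ k))
    · rw [← ENNReal.ofReal_tsum_of_nonneg (fun k => by positivity)
        (summable_geometric_of_lt_one (by norm_num) (by norm_num))]
      exact ENNReal.ofReal_ne_top
    · apply ENNReal.tsum_le_tsum
      intro k
      have h1 := mul_meas_ge_le_integral_of_nonneg (μ := μ)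
        (f := fun ω => ‖T (σ (k + 1)) ω - T (σ k) ω‖)
        (Eventually.of_forall fun ω => norm_nonneg _) (hdfd _ _).integrable ((1 / 2) ^ k)
      have h2 := (hJ k (σ k) (hσ1 k) (σ (k + 1)) (hσ2 k).1).le
      have h3 : μ.real {ω : G | (1 / 2 : ℝ) ^ k ≤ ‖T (σ (k + 1)) ω - T (σ k) ω‖} ≤
          (1 / 2) ^ k := by
        have h4 : (0 : ℝ) < (1 / 2) ^ k := by positivity
        have h5 : ((1 : ℝ) / 4) ^ k = (1 / 2) ^ k * (1 / 2) ^ k := by
          rw [← mul_pow]; norm_num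
        rw [h5] at h2
        exact le_of_mul_le_mul_left (h1.trans h2) h4
      rw [← ofReal_measureReal]
      exact ENNReal.ofReal_le_ofReal h3
  -- increments of φ
  have hu0 : ∀ j ω, 0 ≤ φ (T (j + 1) ω) - φ (T j ω) + (f j).θ * (1 / 4) ^ j / 64 := by
    intro j ω
    have := (hR j).2.1 ω 0 (hP j).2.2
    rw [add_zero, add_zero] at this
    linarith
  have hBC2 : ∀ᵐ ω ∂μ, ∀ᶠ j in atTop, ω ∉ {ω : G | (f j).θ * (1 / 2) ^ j / 16 ≤
      φ (T (j + 1) ω) - φ (T j ω) + (f j).θ * (1 / 4) ^ j / 64} := by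
    apply ae_eventually_notMem
    apply ne_top_of_le_ne_top (b := ∑' k : ℕ, ENNReal.ofReal ((1 / 2) ^ k))
    · rw [← ENNReal.ofReal_tsum_of_nonneg (fun k => by positivity)
        (summable_geometric_of_lt_one (by norm_num) (by norm_num))]
      exact ENNReal.ofReal_ne_top
    · apply ENNReal.tsum_le_tsum
      intro j
      have hint : Integrable (fun ω => φ (T (j + 1) ω) - φ (T j ω) +
          (f j).θ * (1 / 4) ^ j / 64) μ :=
        ((hφint (j + 1)).sub (hφint j)).add (integrable_const _)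
      have h1 := mul_meas_ge_le_integral_of_nonneg (μ := μ)
        (f := fun ω => φ (T (j + 1) ω) - φ (T j ω) + (f j).θ * (1 / 4) ^ j / 64)
        (Eventually.of_forall fun ω => hu0 j ω) hint ((f j).θ * (1 / 2) ^ j / 16)
      have h2 := (hR j).2.2.1
      have h2' : ∫ ω, (φ (T (j + 1) ω) - φ (T j ω) + (f j).θ * (1 / 4) ^ j / 64) ∂μ =
          ∫ ω, (φ (T (j + 1) ω) - φ (T j ω)) ∂μ + (f j).θ * (1 / 4) ^ j / 64 := by
        have hi1 : Integrable (fun ω => φ (T (j + 1) ω) - φ (T j ω)) μ :=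
          (hφint (j + 1)).sub (hφint j)
        rw [integral_add hi1 (integrable_const _)]
        simp
      rw [h2'] at h1
      have hθ := (hP j).2.1
      have h3 : μ.real {ω : G | (f j).θ * (1 / 2) ^ j / 16 ≤
          φ (T (j + 1) ω) - φ (T j ω) + (f j).θ * (1 / 4) ^ j / 64} ≤ (1 / 2) ^ j := by
        have h4 : 0 < (f j).θ * (1 / 2) ^ j / 16 := by positivity
        have h5 : ((1 : ℝ) / 4) ^ j = (1 / 2) ^ j * (1 / 2) ^ j := by
          rw [← mul_pow]; norm_num
        refine le_of_mul_le_mul_left (h1.trans ?_) h4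
        calc _ ≤ 3 * ((f j).θ * (1 / 4) ^ j / 64) + (f j).θ * (1 / 4) ^ j / 64 := by
              gcongr
          _ = (f j).θ * (1 / 2) ^ j / 16 * (1 / 2) ^ j := by rw [h5]; ring
      rw [← ofReal_measureReal]
      exact ENNReal.ofReal_le_ofReal h3
  -- limsup of the gained sets
  have hΓm : ∀ j, MeasurableSet (⋃ i, (f (j + i + 1)).Γ) := fun j =>
    MeasurableSet.iUnion fun i => (hR (j + i)).2.2.2.1
  have hlim : μ (⋂ j, ⋃ i, (f (j + i + 1)).Γ) ≠ 0 := by
    have hanti : Antitone fun j => ⋃ i, (f (j + i + 1)).Γ := by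
      apply antitone_nat_of_succ_le
      intro j
      apply Set.iUnion_subset
      intro i
      have : j + 1 + i + 1 = j + (i + 1) + 1 := by ring
      rw [this]
      exact Set.subset_iUnion (fun i => (f (j + i + 1)).Γ) (i + 1)
    have h1 := tendsto_measure_iInter_atTop (μ := μ) (fun j => (hΓm j).nullMeasurableSet) hanti
      ⟨0, measure_ne_top _ _⟩
    have h2 : ENNReal.ofReal a ≤ μ (⋂ j, ⋃ i, (f (j + i + 1)).Γ) := by
      refine ge_of_tendsto' h1 fun j => ?_
      have h3 : ENNReal.ofReal a ≤ μ (f (j + 0 + 1)).Γ := by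
        rw [← ofReal_measureReal]
        exact ENNReal.ofReal_le_ofReal (hR (j + 0)).2.2.2.2.1
      exact h3.trans (measure_mono (Set.subset_iUnion (fun i => (f (j + i + 1)).Γ) 0))
    intro h3
    rw [h3] at h2
    have := ENNReal.ofReal_pos.2 ha0
    exact absurd (this.trans_le h2) (lt_irrefl _)
  obtain ⟨ω, hω, hω1, hω2⟩ : ∃ ω ∈ ⋂ j, ⋃ i, (f (j + i + 1)).Γ,
      (∀ᶠ k in atTop, ω ∉ {ω : G | (1 / 2 : ℝ) ^ k ≤ ‖T (σ (k + 1)) ω - T (σ k) ω‖}) ∧
      (∀ᶠ j in atTop, ω ∉ {ω : G | (f j).θ * (1 / 2) ^ j / 16 ≤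
        φ (T (j + 1) ω) - φ (T j ω) + (f j).θ * (1 / 4) ^ j / 64}) := by
    have h1 := ae_restrict_of_ae (s := ⋂ j, ⋃ i, (f (j + i + 1)).Γ) (hBC1.and hBC2)
    exact Measure.exists_mem_of_measure_ne_zero_of_ae hlim h1
  -- the limit point
  obtain ⟨k₀, hk₀⟩ := eventually_atTop.1 hω1
  have hcau : CauchySeq fun k => T (σ (k + k₀)) ω := by
    apply cauchySeq_of_le_geometric (1 / 2 : ℝ) 1 (by norm_num)
    intro k
    rw [dist_comm, dist_eq_norm, one_mul]
    have h1 := hk₀ (k + k₀) (by omega)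
    simp only [Set.mem_ofPred_eq, not_le] at h1
    have h2 : k + 1 + k₀ = k + k₀ + 1 := by ring
    rw [h2]
    refine h1.le.trans ?_
    exact pow_le_pow_of_le_one (by norm_num) (by norm_num) (by omega)
  obtain ⟨z, hz⟩ := cauchySeq_tendsto_of_complete hcau
  have hφcont : Continuous φ := by
    apply Seminorm.continuous_of_le (q := normSeminorm ℝ X)
    · exact continuous_norm
    · intro x; exact hφ x
  have hsub : ∀ m, ∀ᶠ k in atTop, m ≤ σ (k + k₀) := by
    intro m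
    filter_upwards [eventually_ge_atTop m] with k hk
    have := hσmono.id_le (k + k₀)
    simp only [id_eq] at this
    omega
  have hlow : ∀ j, φ x₀ * (1 / 2 + (1 / 2) ^ (j + 1)) ≤ φ (T j ω) := by
    intro j
    induction j with
    | zero => rw [hT0]; norm_num
    | succ j ih =>
      have h1 := hu0 j ω
      have h2 : (f j).θ * (1 / 4) ^ j / 64 ≤ φ x₀ * ((1 / 2) ^ j / 64) := by
        have : (f j).θ * (1 / 4) ^ j ≤ φ x₀ * (1 / 2) ^ j := by
          apply mul_le_mul (hθφ j) _ (by positivity) hφx₀.le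
          exact pow_le_pow_left₀ (by norm_num) (by norm_num) j
        linarith
      have h3 : ((1 : ℝ) / 2) ^ (j + 1 + 1) = (1 / 2) ^ j / 4 := by rw [pow_succ, pow_succ]; ring
      have h4 : ((1 : ℝ) / 2) ^ (j + 1) = (1 / 2) ^ j / 2 := by rw [pow_succ]; ring
      have h5 : (0 : ℝ) < φ x₀ * (1 / 2) ^ j := by positivity
      rw [h3]
      rw [h4] at ih
      nlinarith
  refine ⟨z, ?_, ?_⟩
  · have h1 : φ x₀ / 2 ≤ φ z := by
      refine ge_of_tendsto' ((hφcont.tendsto z).comp hz) fun k => ?_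
      have h2 := hlow (σ (k + k₀))
      have h3 : (0 : ℝ) < (1 / 2) ^ (σ (k + k₀) + 1) := by positivity
      simp only [Function.comp]
      nlinarith
    intro hz0
    rw [hz0, map_zero] at h1
    linarith
  · intro C
    obtain ⟨j₀, hj₀⟩ := eventually_atTop.1 hω2
    obtain ⟨i₁, hi₁⟩ := exists_nat_gt (2 * C)
    rw [Set.mem_iInter] at hω
    obtain ⟨r, hr⟩ := Set.mem_iUnion.1 (hω (max j₀ i₁))
    set i := max j₀ i₁ + r with hi
    have hi0 : j₀ ≤ i := (le_max_left _ _).trans (Nat.le_add_right _ _)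
    have hi1 : i₁ ≤ i := (le_max_right _ _).trans (Nat.le_add_right _ _)
    obtain ⟨d, hd1, hd2, hd3, hd4⟩ := (hR i).2.2.2.2.2.2.2 ω hr
    have hstep : ∀ r : ℕ, sd φ (T (i + 1) ω) d - (f (i + 1)).θ / 2 * (1 - (1 / 2) ^ r) ≤
        sd φ (T (i + 1 + r) ω) d := by
      intro r
      induction r with
      | zero => simp
      | succ r ih =>
        set l := i + 1 + r with hl
        have e1 : i + 1 + (r + 1) = l + 1 := by omega
        rw [e1]
        have h1 := (hR l).2.1 ω d (hDmono (show i + 1 ≤ l by omega) hd1)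
        have h2 := (hR l).2.1 ω (-d) (hDmono (show i + 1 ≤ l by omega) hd2)
        have h3 := hj₀ l (by omega)
        simp only [Set.mem_ofPred_eq, not_le] at h3
        have h4 : (f l).θ * (1 / 2) ^ l / 16 ≤ (f (i + 1)).θ * (1 / 2) ^ (r + 1) / 16 := by
          have h5 : (f l).θ ≤ (f (i + 1)).θ := hθanti (show i + 1 ≤ l by omega)
          have h6 : ((1 : ℝ) / 2) ^ l ≤ (1 / 2) ^ (r + 1) :=
            pow_le_pow_of_le_one (by norm_num) (by norm_num) (by omega)
          have h7 := (hP l).2.1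
          have h8 : (f l).θ * (1 / 2) ^ l ≤ (f (i + 1)).θ * (1 / 2) ^ (r + 1) := by
            apply mul_le_mul h5 h6 (by positivity) (h7.le.trans h5)
          linarith
        have h9 : ((1 : ℝ) / 2) ^ (r + 1) = (1 / 2) ^ r / 2 := by rw [pow_succ]; ring
        rw [h9] at h4 ⊢
        have h10 : 0 < (f (i + 1)).θ * (1 / 2) ^ r := by
          have := (hP (i + 1)).2.1
          positivity
        rw [← sub_eq_add_neg, ← sub_eq_add_neg] at h2
        change φ (T l ω + d) - _ ≤ φ (T (l + 1) ω + d) at h1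
        change φ (T l ω - d) - _ ≤ φ (T (l + 1) ω - d) at h2
        unfold sd at ih ⊢
        nlinarith
    have hθpos := (hP (i + 1)).2.1
    have hlimit : sd φ (T (i + 1) ω) d / 2 ≤ sd φ z d := by
      have hsdcont : Continuous fun x => sd φ x d := by
        unfold sd
        fun_prop
      refine ge_of_tendsto ((hsdcont.tendsto z).comp hz) ?_
      filter_upwards [hsub (i + 1)] with k hk
      obtain ⟨r, hr⟩ := Nat.exists_eq_add_of_le hk
      have h1 := hstep r
      simp only [Function.comp]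
      rw [hr]
      have h2 : (0 : ℝ) < (1 / 2) ^ r := by positivity
      have h3 : (f (i + 1)).θ / 2 * (1 - (1 / 2) ^ r) ≤ (f (i + 1)).θ / 2 := by
        nlinarith
      have h4 : (f (i + 1)).θ ≤ sd φ (T (i + 1) ω) d := hd4
      linarith
    refine ⟨d, lt_of_lt_of_le ?_ hlimit⟩
    have h4 : (f (i + 1)).θ ≤ sd φ (T (i + 1) ω) d := hd4
    have h5 : (i : ℝ) * ‖d‖ ^ 2 ≤ sd φ (T (i + 1) ω) d := hd3
    have h6 : 2 * C < i := hi₁.trans_le (by exact_mod_cast hi1)
    rcases eq_or_ne d 0 with h0 | h0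
    · rw [h0]
      rw [h0] at h4
      simp only [norm_zero]
      norm_num
      linarith
    · have h7 : 0 < ‖d‖ ^ 2 := by
        have := norm_pos_iff.2 h0
        positivity
      nlinarith

end Pool.Agent.Helper34.TG
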