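import Pool.Agent.Helper34.TG.Tree

/-!
Module Hist.  Finite histories of moves and the consequences of Lemma A for them.
-/

set_option autoImplicit false

open MeasureTheory Filter Topology
open scoped BigOperators

namespace Pool.Agent.Helper34.TG

universe u

/-- a finite history of moves: `n` moves, `N` columns, move `k` is `m k (ω k)` on the set `E k` -/
structure Hist (X : Type u) where
  n : ℕ
  N : ℕ
  m : ℕ → (ℕ → ZMod 2) → X
  E : ℕ → Set G

variable {X : Type u} [NormedAddCommGroup X] [NormedSpace ℝ X]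

/-- the position after the moves -/
noncomputable def Hist.T (h : Hist X) (x₀ : X) (ω : G) : X :=
  x₀ + ∑ k ∈ Finset.range h.n, (h.E k).indicator (fun ω => h.m k (ω k)) ω

/-- validity of a history -/
structure Hist.Valid (h : Hist X) (a : ℝ) : Prop where
  col : ∀ k < h.n, ∀ s s' : ℕ → ZMod 2, (∀ i < h.N, s i = s' i) → h.m k s = h.m k s'
  symm : ∀ k < h.n, ∀ s, h.m k (flip0 s) = - h.m k s
  fd : ∀ k < h.n, FD k h.N (fun ω => ω ∈ h.E k)
  prob : ∀ k < h.n, 1 - a ≤ μ.real (h.E k)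
  Npos : 0 < h.N

/-- `h'` extends `h` -/
structure Hist.Ext (h h' : Hist X) : Prop where
  n_le : h.n ≤ h'.n
  N_le : h.N ≤ h'.N
  m_eq : ∀ k < h.n, h'.m k = h.m k
  E_eq : ∀ k < h.n, h'.E k = h.E k

/-- second difference -/
def sd (φ : Seminorm ℝ X) (x h : X) : ℝ := φ (x + h) + φ (x - h) - 2 * φ x

/-- Among `c` disjoint blocks of moves at least one has a small sum of all its moves. -/
def BlockProp (X : Type u) [NormedAddCommGroup X] [NormedSpace ℝ X] (a : ℝ) : Prop :=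
  ∀ η B : ℝ, 0 < η → ∃ c : ℕ, ∀ (h : Hist X) (x₀ : X), h.Valid a →
    ∫ ω, ‖h.T x₀ ω - x₀‖ ∂μ ≤ B →
    ∀ b : Fin c → Finset ℕ, (∀ i, b i ⊆ Finset.range h.n) →
      (∀ i j, i ≠ j → Disjoint (b i) (b j)) →
      ∃ i, ∫ ω, ‖∑ k ∈ b i, h.m k (ω k)‖ ∂μ < η

namespace Hist

lemma Ext.refl (h : Hist X) : h.Ext h := ⟨le_rfl, le_rfl, fun _ _ => rfl, fun _ _ => rfl⟩

lemma Ext.trans {h₁ h₂ h₃ : Hist X} (h : h₁.Ext h₂) (h' : h₂.Ext h₃) : h₁.Ext h₃ :=
  ⟨h.n_le.trans h'.n_le, h.N_le.trans h'.N_le,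
    fun k hk => (h'.m_eq k (hk.trans_le h.n_le)).trans (h.m_eq k hk),
    fun k hk => (h'.E_eq k (hk.trans_le h.n_le)).trans (h.E_eq k hk)⟩

/-- the position is finitely determined -/
lemma Valid.fd_T {h : Hist X} {a : ℝ} (hv : h.Valid a) (x₀ : X) : FD h.n h.N (h.T x₀) := by
  intro ω ω' hh
  unfold T
  congr 1
  refine Finset.sum_congr rfl fun k hk => ?_
  rw [Finset.mem_range] at hk
  have h1 : h.m k (ω k) = h.m k (ω' k) := hv.col k hk _ _ fun i hi => hh k hk i hi
  have h2 : (ω ∈ h.E k) = (ω' ∈ h.E k) :=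
    hv.fd k hk ω ω' fun k' hk' i hi => hh k' (hk'.trans hk) i hi
  by_cases hω : ω ∈ h.E k
  · rw [Set.indicator_of_mem hω, Set.indicator_of_mem (h2 ▸ hω), h1]
  · rw [Set.indicator_of_notMem hω, Set.indicator_of_notMem (fun h3 => hω (h2.symm ▸ h3))]

/-- append one move -/
def snoc (h : Hist X) (N' : ℕ) (m' : (ℕ → ZMod 2) → X) (E' : Set G) : Hist X where
  n := h.n + 1
  N := N'
  m := fun k => if k = h.n then m' else h.m k
  E := fun k => if k = h.n then E' else h.E k

lemma snoc_ext (h : Hist X) {N' : ℕ} (hN : h.N ≤ N') (m' : (ℕ → ZMod 2) → X) (E' : Set G) :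
    h.Ext (h.snoc N' m' E') :=
  ⟨Nat.le_succ _, hN, fun k hk => by simp [snoc, hk.ne], fun k hk => by simp [snoc, hk.ne]⟩

lemma snoc_T (h : Hist X) (N' : ℕ) (m' : (ℕ → ZMod 2) → X) (E' : Set G) (x₀ : X) (ω : G) :
    (h.snoc N' m' E').T x₀ ω = h.T x₀ ω + E'.indicator (fun ω => m' (ω h.n)) ω := by
  unfold T
  have hn : (h.snoc N' m' E').n = h.n + 1 := rfl
  rw [hn, Finset.sum_range_succ, ← add_assoc]
  congr 1
  · congr 1
    refine Finset.sum_congr rfl fun k hk => ?_
    rw [Finset.mem_range] at hk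
    simp [snoc, hk.ne]
  · simp [snoc]

lemma Valid.snoc {h : Hist X} {a : ℝ} (hv : h.Valid a) {N' : ℕ} (hN : h.N ≤ N')
    {m' : (ℕ → ZMod 2) → X} {E' : Set G}
    (hm : ∀ s s' : ℕ → ZMod 2, (∀ i < N', s i = s' i) → m' s = m' s')
    (hs : ∀ s, m' (flip0 s) = - m' s) (hE : FD h.n N' (fun ω => ω ∈ E'))
    (hp : 1 - a ≤ μ.real E') : (h.snoc N' m' E').Valid a where
  col := by
    intro k hk s s' hh
    by_cases hk' : k = h.n
    · simp only [Hist.snoc, hk', if_true]
      exact hm s s' hh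
    · simp only [Hist.snoc, hk', if_false]
      exact hv.col k (lt_of_le_of_ne (Nat.lt_succ_iff.1 hk) hk') s s'
        fun i hi => hh i (hi.trans_le hN)
  symm := by
    intro k hk s
    by_cases hk' : k = h.n
    · simp only [Hist.snoc, hk', if_true]
      exact hs s
    · simp only [Hist.snoc, hk', if_false]
      exact hv.symm k (lt_of_le_of_ne (Nat.lt_succ_iff.1 hk) hk') s
  fd := by
    intro k hk
    by_cases hk' : k = h.n
    · simp only [Hist.snoc, hk', if_true]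
      exact hE
    · simp only [Hist.snoc, hk', if_false]
      exact (hv.fd k (lt_of_le_of_ne (Nat.lt_succ_iff.1 hk) hk')).mono le_rfl hN
  prob := by
    intro k hk
    by_cases hk' : k = h.n
    · simp only [Hist.snoc, hk', if_true]
      exact hp
    · simp only [Hist.snoc, hk', if_false]
      exact hv.prob k (lt_of_le_of_ne (Nat.lt_succ_iff.1 hk) hk')
  Npos := lt_of_lt_of_le hv.Npos hN

end Hist

end Pool.Agent.Helper34.TG
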