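import Pool.Agent.Helper34.TG.Hist

/-!
Module OneStep.  See section 4 of MP_b4da01_an.md.
-/

set_option autoImplicit false

open MeasureTheory Filter Topology
open scoped BigOperators

namespace Pool.Agent.Helper34.TG

universe u

variable {X : Type u} [NormedAddCommGroup X] [NormedSpace ℝ X]

/-- subgradients of a seminorm dominated by the norm -/
lemma exists_subgradient (φ : Seminorm ℝ X) (hφ : ∀ x, φ x ≤ ‖x‖) (y : X) :
    ∃ f : X →L[ℝ] ℝ, f y = φ y ∧ ∀ z, f z ≤ φ z := by
  have key : ∃ f : X →ₗ[ℝ] ℝ, f y = φ y ∧ ∀ z, f z ≤ φ z := by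
    by_cases hy : y = 0
    · refine ⟨0, by simp [hy], fun z => ?_⟩
      simp
    · obtain ⟨g, hg1, hg2⟩ := exists_extension_of_le_sublinear
        (LinearPMap.mkSpanSingleton y (φ y) hy) φ
        (fun c hc x => by rw [map_smul_eq_mul, Real.norm_eq_abs, abs_of_pos hc])
        (fun x z => map_add_le_add φ x z)
        (by
          rintro ⟨x, hx⟩
          obtain ⟨c, rfl⟩ := Submodule.mem_span_singleton.1 hx
          rw [LinearPMap.mkSpanSingleton'_apply]
          change c * φ y ≤ φ (c • y)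
          rw [map_smul_eq_mul, Real.norm_eq_abs]
          exact mul_le_mul_of_nonneg_right (le_abs_self c) (apply_nonneg φ y))
      refine ⟨g, ?_, hg2⟩
      have h1 := hg1 ⟨y, Submodule.mem_span_singleton_self y⟩
      rw [h1]
      exact LinearPMap.mkSpanSingleton_apply ℝ ℝ hy (φ y)
  obtain ⟨f, hf1, hf2⟩ := key
  refine ⟨f.mkContinuous 1 fun x => ?_, hf1, hf2⟩
  rw [one_mul, Real.norm_eq_abs, abs_le]
  constructor
  · have := hf2 (-x)
    rw [map_neg, map_neg_eq_map] at this
    linarith [hφ x]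
  · exact (hf2 x).trans (hφ x)

lemma sd_le (φ : Seminorm ℝ X) (hφ : ∀ x, φ x ≤ ‖x‖) (x d : X) : sd φ x d ≤ 2 * ‖d‖ := by
  unfold sd
  have h1 := map_add_le_add φ x d
  have h2 := map_sub_le_add φ x d
  linarith [hφ d]

lemma sd_nonneg (φ : Seminorm ℝ X) (x d : X) : 0 ≤ sd φ x d := by
  unfold sd
  have h1 := map_add_le_add φ (x + d) (x - d)
  have h2 : x + d + (x - d) = (2 : ℝ) • x := by rw [two_smul]; abel
  rw [h2, map_smul_eq_mul] at h1
  norm_num at h1
  linarith

lemma sd_sgn (φ : Seminorm ℝ X) (x d : X) (z : ZMod 2) : sd φ x (sgn z • d) = sd φ x d := by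
  unfold sgn sd
  split_ifs
  · simp
  · simp only [neg_smul, one_smul, sub_neg_eq_add]
    rw [← sub_eq_add_neg]
    ring

/-- function of row `n` -/
lemma FD.row {α : Type*} {n N : ℕ} {f : (ℕ → ZMod 2) → α}
    (hf : ∀ s s' : ℕ → ZMod 2, (∀ i < N, s i = s' i) → f s = f s') :
    FD (n + 1) N (fun ω => f (ω n)) :=
  fun ω ω' hh => hf _ _ fun i hi => hh n (Nat.lt_succ_self n) i hi

lemma FD.congr_set {n N : ℕ} {A : Set G} (hA : FD n N (fun ω => ω ∈ A)) {ω ω' : G}
    (h : ∀ k < n, ∀ i < N, ω k i = ω' k i) : ω ∈ A ↔ ω' ∈ A :=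
  iff_of_eq (hA ω ω' h)

/-- the coin `(n, i)` as an element of `G` -/
def coin (n i : ℕ) : G := fun k j => if k = n ∧ j = i then 1 else 0

lemma add_coin_row (ω : G) (n i : ℕ) : (ω + coin n i) n i = ω n i + 1 := by
  simp [coin]

lemma add_coin_col_ne (ω : G) (n : ℕ) {i j : ℕ} (h : j ≠ i) : (ω + coin n i) n j = ω n j := by
  simp [coin, h]

lemma add_coin_row_ne (ω : G) {n k : ℕ} (h : k ≠ n) (i j : ℕ) :
    (ω + coin n i) k j = ω k j := by
  simp [coin, h]

lemma FD_sgn (n i : ℕ) : FD (n + 1) (i + 1) (fun ω => sgn (ω n i)) :=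
  fun ω ω' hh => by simp only [hh n (Nat.lt_succ_self n) i (Nat.lt_succ_self i)]

lemma integral_sgn (n i : ℕ) : ∫ ω : G, sgn (ω n i) ∂μ = 0 := by
  have h1 := integral_translate (fun ω => sgn (ω n i)) (coin n i)
  simp only [add_coin_row, sgn_add_one] at h1
  rw [integral_neg] at h1
  linarith

/-- the tree martingale scaled by `δ` -/
noncomputable def treeM (δ : ℝ) (d : ℕ → (ℕ → ZMod 2) → X) (i : ℕ) (s : ℕ → ZMod 2) : X :=
  δ • ∑ l ∈ Finset.range i, sgn (s (l + 1)) • d l s

lemma treeM_succ (δ : ℝ) (d : ℕ → (ℕ → ZMod 2) → X) (i : ℕ) (s : ℕ → ZMod 2) :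
    treeM δ d (i + 1) s = treeM δ d i s + sgn (s (i + 1)) • (δ • d i s) := by
  unfold treeM
  rw [Finset.sum_range_succ, smul_add, smul_comm δ (sgn (s (i + 1))) (d i s)]

lemma treeM_congr {δ : ℝ} {d : ℕ → (ℕ → ZMod 2) → X}
    (hd : ∀ l, ∀ s s' : ℕ → ZMod 2, (∀ i ≤ l, s i = s' i) → d l s = d l s') (i : ℕ)
    {s s' : ℕ → ZMod 2} (h : ∀ j < i + 1, s j = s' j) : treeM δ d i s = treeM δ d i s' := by
  unfold treeM
  congr 1
  refine Finset.sum_congr rfl fun l hl => ?_
  rw [Finset.mem_range] at hl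
  rw [h (l + 1) (by omega), hd l s s' fun j hj => h j (by omega)]

lemma treeM_flip {δ : ℝ} {d : ℕ → (ℕ → ZMod 2) → X} (hd : ∀ l s, d l (flip0 s) = - d l s)
    (i : ℕ) (s : ℕ → ZMod 2) : treeM δ d i (flip0 s) = - treeM δ d i s := by
  unfold treeM
  rw [← smul_neg, ← Finset.sum_neg_distrib]
  congr 1
  refine Finset.sum_congr rfl fun l _ => ?_
  rw [hd, smul_neg]
  simp [flip0]

/-- `W' = W + 1_Act m(ω n)`. -/
theorem one_step (htree : HasTrees X) (φ : Seminorm ℝ X) (hφ : ∀ x, φ x ≤ ‖x‖)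
    (n N₀ : ℕ) (W : G → X) (hW : FD n N₀ W) (Act : Set G) (hAct : FD n N₀ (fun ω => ω ∈ Act))
    (Q : Finset X) (δ g K ε : ℝ) (hδ : 0 < δ) (hg : 0 < g) (hε : 0 < ε) :
    ∃ (N₁ : ℕ) (m : (ℕ → ZMod 2) → X), N₀ ≤ N₁ ∧
      (∀ s s' : ℕ → ZMod 2, (∀ i < N₁, s i = s' i) → m s = m s') ∧
      (∀ s, m (flip0 s) = - m s) ∧
      (∀ ω, ∀ q ∈ Q, φ (W ω + q) - ε ≤ φ (W ω + Act.indicator (fun ω => m (ω n)) ω + q)) ∧
      (∫ ω, (φ (W ω + Act.indicator (fun ω => m (ω n)) ω) - φ (W ω)) ∂μ ≤ g) ∧
      (δ / 16 ≤ ∫ ω, ‖m (ω n)‖ ∂μ ∨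
        ∃ (A : Set G) (D' : Finset X) (τ : ℝ), A ⊆ Act ∧ FD (n + 1) N₁ (fun ω => ω ∈ A) ∧
          g / (2 * δ) ≤ μ.real A ∧ 0 < τ ∧
          ∀ ω ∈ A, ∃ d ∈ D', K * ‖d‖ ^ 2 ≤ sd φ (W ω + Act.indicator (fun ω => m (ω n)) ω) d ∧
            τ ≤ sd φ (W ω + Act.indicator (fun ω => m (ω n)) ω) d) := by
  classical
  obtain ⟨NN, hNN⟩ := exists_nat_gt (max 0 (K * δ ^ 2 / g))
  have hNN0 : (0 : ℝ) < NN := (le_max_left _ _).trans_lt hNN
  have hNNpos : 0 < NN := by exact_mod_cast hNN0
  have hNN1 : K * δ ^ 2 < NN * g := by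
    have := (le_max_right _ _).trans_lt hNN
    rwa [div_lt_iff₀ hg] at this
  choose sub hsub1 hsub2 using exists_subgradient φ hφ
  have hVfin : (Set.image2 (fun x q => x + q) (Set.range W) (Q : Set X)).Finite :=
    hW.finite_range.image2 _ Q.finite_toSet
  obtain ⟨d, hd1, hd2, hd3, hd4, c, hd5⟩ := htree NN hNNpos (ε / δ) (by positivity)
    (hVfin.toFinset.image sub)
  have hM4 : ∀ i ≤ NN, ∀ s, ∀ ω, ∀ q ∈ Q, |sub (W ω + q) (treeM δ d i s)| ≤ ε := by
    intro i hi s ω q hq
    unfold treeM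
    rw [map_smul, smul_eq_mul, abs_mul, abs_of_pos hδ]
    have h1 := hd4 i hi s (sub (W ω + q)) (by
      rw [Finset.mem_image]
      refine ⟨W ω + q, ?_, rfl⟩
      rw [Set.Finite.mem_toFinset]
      exact ⟨W ω, ⟨ω, rfl⟩, q, hq, rfl⟩)
    rw [le_div_iff₀ hδ] at h1
    linarith
  set N₁ : ℕ := N₀ + (NN + 2) with hN₁
  have hcol : ∀ i ≤ NN, ∀ s s' : ℕ → ZMod 2, (∀ j < N₁, s j = s' j) →
      treeM δ d i s = treeM δ d i s' :=
    fun i hi s s' hh => treeM_congr hd1 i fun j hj => hh j (by omega)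
  have hWM : ∀ i ≤ NN, FD (n + 1) N₁ (fun ω => W ω + treeM δ d i (ω n)) := fun i hi =>
    (hW.mono (Nat.le_succ n) (by omega)).comp₂ (FD.row (hcol i hi)) (fun x y => x + y)
  have hAct' : FD (n + 1) N₁ (fun ω => ω ∈ Act) := hAct.mono (Nat.le_succ n) (by omega)
  have hcold : ∀ i < NN, ∀ s s' : ℕ → ZMod 2, (∀ j < N₁, s j = s' j) →
      δ • d i s = δ • d i s' :=
    fun i hi s s' hh => by rw [hd1 i s s' fun j hj => hh j (by omega)]
  -- far-out property
  have hfar : ∀ i ≤ NN, ∀ ω, ∀ q ∈ Q, φ (W ω + q) - ε ≤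
      φ (W ω + Act.indicator (fun ω => treeM δ d i (ω n)) ω + q) := by
    intro i hi ω q hq
    by_cases hω : ω ∈ Act
    · rw [Set.indicator_of_mem hω]
      have h1 := hsub2 (W ω + q) (W ω + treeM δ d i (ω n) + q)
      have h2 : sub (W ω + q) (W ω + treeM δ d i (ω n) + q) =
          sub (W ω + q) (W ω + q) + sub (W ω + q) (treeM δ d i (ω n)) := by
        rw [← map_add]; congr 1; abel
      rw [h2, hsub1] at h1
      have h3 := abs_le.1 (hM4 i hi (ω n) ω q hq)
      linarith [h3.1]
    · rw [Set.indicator_of_notMem hω, add_zero]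
      linarith
  -- increments
  set F : ℕ → G → ℝ := fun i => Act.indicator
    (fun ω => φ (W ω + treeM δ d (i + 1) (ω n)) - φ (W ω + treeM δ d i (ω n))) with hF
  have hFfd : ∀ i < NN, FD (n + 1) N₁ (F i) := by
    intro i hi
    apply FD.indicator hAct'
    exact ((hWM (i + 1) hi).comp φ).comp₂ ((hWM i hi.le).comp φ) (fun x y => x - y)
  have hcost : ∀ i ≤ NN, ∫ ω, (φ (W ω + Act.indicator (fun ω => treeM δ d i (ω n)) ω) -
      φ (W ω)) ∂μ = ∑ l ∈ Finset.range i, ∫ ω, F l ω ∂μ := by
    intro i hi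
    rw [← integral_finsetSum _ fun l hl => (hFfd l (by
      rw [Finset.mem_range] at hl; omega)).integrable]
    congr 1
    funext ω
    by_cases hω : ω ∈ Act
    · simp only [hF, Set.indicator_of_mem hω]
      rw [Finset.sum_range_sub (fun l => φ (W ω + treeM δ d l (ω n)))]
      simp [treeM]
    · simp only [hF, Set.indicator_of_notMem hω]
      simp
  -- coin flip
  have hflip : ∀ i < NN, ∫ ω, F i ω ∂μ = (1 / 2) * ∫ ω, Act.indicator
      (fun ω => sd φ (W ω + treeM δ d i (ω n)) (δ • d i (ω n))) ω ∂μ := by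
    intro i hi
    have h1 := integral_translate (F i) (coin n (i + 1))
    have hFe : FD (n + 1) N₁ (fun ω => F i (ω + coin n (i + 1))) := by
      intro ω ω' hh
      apply hFfd i hi
      intro k hk j hj
      simp only [Pi.add_apply, hh k hk j hj]
    have h2 : ∫ ω, F i ω ∂μ + ∫ ω, F i (ω + coin n (i + 1)) ∂μ =
        ∫ ω, Act.indicator
          (fun ω => sd φ (W ω + treeM δ d i (ω n)) (δ • d i (ω n))) ω ∂μ := by
      rw [← integral_add (hFfd i hi).integrable hFe.integrable]
      congr 1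
      funext ω
      have hWe : W (ω + coin n (i + 1)) = W ω :=
        hW _ _ fun k hk j hj => add_coin_row_ne ω (by omega) _ _
      have hAe : ω + coin n (i + 1) ∈ Act ↔ ω ∈ Act :=
        hAct.congr_set fun k hk j hj => add_coin_row_ne ω (by omega) _ _
      have hMe : treeM δ d i ((ω + coin n (i + 1)) n) = treeM δ d i (ω n) :=
        treeM_congr hd1 i fun j hj => add_coin_col_ne ω n (by omega)
      have hde : d i ((ω + coin n (i + 1)) n) = d i (ω n) :=
        hd1 i _ _ fun j hj => add_coin_col_ne ω n (by omega)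
      by_cases hω : ω ∈ Act
      · simp only [hF, Set.indicator_of_mem hω, Set.indicator_of_mem (hAe.2 hω), hWe,
          treeM_succ, hMe, hde, add_coin_row, sgn_add_one]
        rw [← sd_sgn φ _ _ (ω n (i + 1))]
        unfold sd
        rw [neg_smul, ← add_assoc, ← add_assoc, ← sub_eq_add_neg]
        ring
      · simp only [hF, Set.indicator_of_notMem hω,
          Set.indicator_of_notMem (fun h => hω (hAe.1 h)), add_zero]
    linarith
  by_cases hall : ∀ i < NN, ∫ ω, F i ω ∂μ < g / NN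
  · -- flat move
    refine ⟨N₁, treeM δ d NN, by omega, hcol NN le_rfl, treeM_flip hd3 NN, hfar NN le_rfl, ?_,
      Or.inl ?_⟩
    · rw [hcost NN le_rfl]
      calc ∑ l ∈ Finset.range NN, ∫ ω, F l ω ∂μ ≤ ∑ l ∈ Finset.range NN, g / NN :=
            Finset.sum_le_sum fun l hl => (hall l (Finset.mem_range.1 hl)).le
        _ = g := by
            rw [Finset.sum_const, Finset.card_range, nsmul_eq_mul]
            field_simp
    · have hfd : FD (n + 1) N₁ (fun ω => ‖treeM δ d NN (ω n)‖) :=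
        (FD.row (hcol NN le_rfl)).comp (fun x => ‖x‖)
      have hfd2 : FD (n + 1) N₁ (fun ω => δ * (1 / 16 + c * ∑ l ∈ Finset.range NN,
          sgn (ω n (l + 1)))) := by
        apply FD.row (f := fun s => δ * (1 / 16 + c * ∑ l ∈ Finset.range NN, sgn (s (l + 1))))
        intro s s' hh
        congr 3
        refine Finset.sum_congr rfl fun l hl => ?_
        rw [Finset.mem_range] at hl
        rw [hh (l + 1) (by omega)]
      have h1 : ∫ ω : G, δ * (1 / 16 + c * ∑ l ∈ Finset.range NN, sgn (ω n (l + 1))) ∂μ =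
          δ / 16 := by
        rw [integral_const_mul, integral_add (integrable_const _), integral_const_mul,
          integral_finsetSum _ fun l _ => (FD_sgn n (l + 1)).integrable]
        · rw [Finset.sum_eq_zero fun l _ => integral_sgn n (l + 1)]
          simp
          ring
        · apply Integrable.const_mul
          exact integrable_finsetSum _ fun l _ => (FD_sgn n (l + 1)).integrable
      rw [← h1]
      apply integral_mono hfd2.integrable hfd.integrable
      intro ω
      simp only [treeM, norm_smul, Real.norm_eq_abs, abs_of_pos hδ]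
      exact mul_le_mul_of_nonneg_left (hd5 (ω n)) hδ.le
  · -- gain
    have hex : ∃ i, i < NN ∧ g / NN ≤ ∫ ω, F i ω ∂μ := by
      push Not at hall
      exact hall
    obtain ⟨i, ⟨hi, hgi⟩, hmin⟩ : ∃ i, (i < NN ∧ g / NN ≤ ∫ ω, F i ω ∂μ) ∧
        ∀ l < i, ∫ ω, F l ω ∂μ ≤ g / NN := by
      refine ⟨Nat.find hex, Nat.find_spec hex, fun l hl => ?_⟩
      have h1 := Nat.find_min hex hl
      have h2 := (Nat.find_spec hex).1
      by_contra h3
      exact h1 ⟨hl.trans h2, (not_le.1 h3).le⟩
    have hsdfd : FD (n + 1) N₁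
        (fun ω => sd φ (W ω + treeM δ d i (ω n)) (δ • d i (ω n))) :=
      (hWM i hi.le).comp₂ (FD.row (hcold i hi)) (fun x y => sd φ x y)
    set A : Set G := {ω | ω ∈ Act ∧ g / NN ≤ sd φ (W ω + treeM δ d i (ω n)) (δ • d i (ω n))}
      with hA
    have hAfd : FD (n + 1) N₁ (fun ω => ω ∈ A) :=
      hAct'.comp₂ hsdfd (fun p y => p ∧ g / NN ≤ y)
    have hrange : (Set.range (fun ω : G => δ • d i (ω n))).Finite :=
      (FD.row (n := n) (hcold i hi)).finite_range
    refine ⟨N₁, treeM δ d i, by omega, hcol i hi.le, treeM_flip hd3 i, hfar i hi.le, ?_,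
      Or.inr ⟨A, hrange.toFinset, g / NN, fun ω hω => hω.1, hAfd, ?_, by positivity, ?_⟩⟩
    · rw [hcost i hi.le]
      calc ∑ l ∈ Finset.range i, ∫ ω, F l ω ∂μ ≤ ∑ l ∈ Finset.range i, g / NN :=
            Finset.sum_le_sum fun l hl => hmin l (Finset.mem_range.1 hl)
        _ = i * (g / NN) := by
            rw [Finset.sum_const, Finset.card_range, nsmul_eq_mul]
        _ ≤ NN * (g / NN) := by
            have : (i : ℝ) ≤ NN := by exact_mod_cast hi.le
            gcongr
        _ = g := by field_simp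
    · rw [hflip i hi] at hgi
      have h1 : ∫ ω, Act.indicator
          (fun ω => sd φ (W ω + treeM δ d i (ω n)) (δ • d i (ω n))) ω ∂μ ≤
          ∫ ω, (A.indicator (fun _ => 2 * (δ / NN)) ω + g / NN) ∂μ := by
        have hAm : MeasurableSet A := hAfd.measurableSet
        apply integral_mono (FD.indicator hAct' hsdfd).integrable
        · exact ((integrable_const _).indicator hAm).add (integrable_const _)
        · intro ω
          have hgN : 0 < g / NN := by positivity
          have hδN : 0 < δ / NN := by positivity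
          by_cases hω : ω ∈ Act
          · simp only [Set.indicator_of_mem hω]
            by_cases hωA : ω ∈ A
            · rw [Set.indicator_of_mem hωA]
              have h2 := sd_le φ hφ (W ω + treeM δ d i (ω n)) (δ • d i (ω n))
              have h3 : ‖δ • d i (ω n)‖ ≤ δ / NN := by
                rw [norm_smul, Real.norm_eq_abs, abs_of_pos hδ]
                have := hd2 i (ω n)
                calc δ * ‖d i (ω n)‖ ≤ δ * (1 / NN) := by gcongr
                  _ = δ / NN := by ring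
              linarith
            · rw [Set.indicator_of_notMem hωA]
              have h2 : ¬ g / NN ≤ sd φ (W ω + treeM δ d i (ω n)) (δ • d i (ω n)) :=
                fun h => hωA ⟨hω, h⟩
              linarith
          · simp only [Set.indicator_of_notMem hω]
            have : 0 ≤ A.indicator (fun _ : G => 2 * (δ / NN)) ω :=
              Set.indicator_nonneg (fun _ _ => by positivity) ω
            linarith
      have h2 : ∫ ω, (A.indicator (fun _ => 2 * (δ / NN)) ω + g / NN) ∂μ =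
          2 * (δ / NN) * μ.real A + g / NN := by
        have hAm : MeasurableSet A := hAfd.measurableSet
        rw [integral_add ((integrable_const _).indicator hAm) (integrable_const _),
          integral_indicator_const _ hAm]
        simp
        ring
      rw [h2] at h1
      have h3 : g / NN ≤ (δ / NN) * μ.real A + (1 / 2) * (g / NN) := by
        calc g / NN ≤ _ := hgi
          _ ≤ (1 / 2) * (2 * (δ / NN) * μ.real A + g / NN) := by gcongr
          _ = _ := by ring
      have h4 : (1 / 2) * (g / NN) ≤ (δ / NN) * μ.real A := by linarith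
      have h5 : (1 / 2) * g ≤ δ * μ.real A := by
        have := mul_le_mul_of_nonneg_left h4 hNN0.le
        calc (1 / 2) * g = NN * ((1 / 2) * (g / NN)) := by field_simp
          _ ≤ NN * ((δ / NN) * μ.real A) := this
          _ = δ * μ.real A := by field_simp
      rw [div_le_iff₀ (by positivity)]
      linarith
    · intro ω hω
      refine ⟨δ • d i (ω n), ?_, ?_, ?_⟩
      · rw [Set.Finite.mem_toFinset]
        exact ⟨ω, rfl⟩
      · rw [Set.indicator_of_mem hω.1]
        refine le_trans ?_ hω.2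
        have h3 : ‖δ • d i (ω n)‖ ≤ δ / NN := by
          rw [norm_smul, Real.norm_eq_abs, abs_of_pos hδ]
          have := hd2 i (ω n)
          calc δ * ‖d i (ω n)‖ ≤ δ * (1 / NN) := by gcongr
            _ = δ / NN := by ring
        rcases le_total K 0 with hK | hK
        · have : K * ‖δ • d i (ω n)‖ ^ 2 ≤ 0 := mul_nonpos_of_nonpos_of_nonneg hK (by positivity)
          have : 0 < g / NN := by positivity
          linarith
        · calc K * ‖δ • d i (ω n)‖ ^ 2 ≤ K * (δ / NN) ^ 2 := by gcongr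
            _ = (K * δ ^ 2) / NN ^ 2 := by ring
            _ ≤ (NN * g) / NN ^ 2 := by gcongr
            _ = g / NN := by field_simp
      · rw [Set.indicator_of_mem hω.1]
        exact hω.2

end Pool.Agent.Helper34.TG
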