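import Pool.Agent.Helper34.TG.Defs

/-!
Coin tossing space `G = ℕ → ℕ → ZMod 2` with Haar measure, finitely determined functions.
-/

set_option autoImplicit false

open MeasureTheory Filter Topology

namespace Pool.Agent.Helper34.TG

/-- the probability space: row `k` contains the coins of move `k`. -/
abbrev G : Type := ℕ → ℕ → ZMod 2

/-- Haar probability measure on `G` (fair independent coins). -/
noncomputable def μ : Measure G := Measure.addHaarMeasure ⊤

instance : IsProbabilityMeasure μ := by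
  constructor
  have h := Measure.addHaarMeasure_self (K₀ := (⊤ : TopologicalSpace.PositiveCompacts G))
  simpa [μ] using h

instance : μ.IsAddLeftInvariant := by unfold μ; infer_instance

/-- sign of a coin -/
noncomputable def sgn (z : ZMod 2) : ℝ := if z = 0 then 1 else -1

lemma sgn_add_one (z : ZMod 2) : sgn (z + 1) = - sgn z := by
  have h : ∀ z : ZMod 2, (z + 1 = 0 ↔ ¬ z = 0) := by decide
  unfold sgn
  by_cases hz : z = 0
  · rw [if_pos hz, if_neg (fun h1 => ((h z).1 h1) hz)]
  · rw [if_neg hz, if_pos ((h z).2 hz)]; simp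

lemma sgn_mul_self (z : ZMod 2) : sgn z * sgn z = 1 := by
  unfold sgn; split_ifs <;> norm_num

lemma abs_sgn (z : ZMod 2) : |sgn z| = 1 := by
  unfold sgn; split_ifs <;> simp

/-- `f` is determined by the coins with row index `< n` and column index `< N`. -/
def FD {α : Type*} (n N : ℕ) (f : G → α) : Prop :=
  ∀ ω ω' : G, (∀ k < n, ∀ i < N, ω k i = ω' k i) → f ω = f ω'

namespace FD

variable {α β γ : Type*} {n N n' N' : ℕ}

lemma mono {f : G → α} (h : FD n N f) (hn : n ≤ n') (hN : N ≤ N') : FD n' N' f :=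
  fun ω ω' hh => h ω ω' fun k hk i hi => hh k (hk.trans_le hn) i (hi.trans_le hN)

lemma comp {f : G → α} (h : FD n N f) (g : α → β) : FD n N (fun ω => g (f ω)) :=
  fun ω ω' hh => by simp only [h ω ω' hh]

lemma comp₂ {f : G → α} {f' : G → β} (h : FD n N f) (h' : FD n N f') (g : α → β → γ) :
    FD n N (fun ω => g (f ω) (f' ω)) :=
  fun ω ω' hh => by simp only [h ω ω' hh, h' ω ω' hh]

lemma const (c : α) : FD n N (fun _ => c) := fun _ _ _ => rfl

lemma sum {ι : Type*} {α : Type*} [AddCommMonoid α] {s : Finset ι} {f : ι → G → α}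
    (h : ∀ i ∈ s, FD n N (f i)) : FD n N (fun ω => ∑ i ∈ s, f i ω) :=
  fun ω ω' hh => Finset.sum_congr rfl fun i hi => h i hi ω ω' hh

/-- indicator of a finitely determined set -/
lemma indicator {α : Type*} [Zero α] {A : Set G} (hA : FD n N (fun ω => ω ∈ A)) {f : G → α}
    (h : FD n N f) : FD n N (A.indicator f) := by
  classical
  intro ω ω' hh
  have h1 : (ω ∈ A) = (ω' ∈ A) := hA ω ω' hh
  by_cases hω : ω ∈ A
  · rw [Set.indicator_of_mem hω, Set.indicator_of_mem (h1 ▸ hω), h ω ω' hh]
  · rw [Set.indicator_of_notMem hω, Set.indicator_of_notMem (fun h2 => hω (h1.symm ▸ h2))]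

end FD

/-- restriction to a box -/
def res (n N : ℕ) (ω : G) : Fin n → Fin N → ZMod 2 := fun k i => ω k i

/-- extension by zero of a box -/
def ext (n N : ℕ) (s : Fin n → Fin N → ZMod 2) : G :=
  fun k i => if h : k < n ∧ i < N then s ⟨k, h.1⟩ ⟨i, h.2⟩ else 0

lemma ext_apply_of_lt {n N : ℕ} (s : Fin n → Fin N → ZMod 2) {k i : ℕ} (hk : k < n) (hi : i < N) :
    ext n N s k i = s ⟨k, hk⟩ ⟨i, hi⟩ := by
  simp [ext, hk, hi]

lemma FD.eq_ext_res {α : Type*} {n N : ℕ} {f : G → α} (h : FD n N f) (ω : G) :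
    f ω = f (ext n N (res n N ω)) :=
  h _ _ fun k hk i hi => by rw [ext_apply_of_lt _ hk hi]; rfl

lemma measurable_res (n N : ℕ) : Measurable (res n N) := by
  unfold res
  fun_prop

lemma FD.measurable {α : Type*} [MeasurableSpace α] {n N : ℕ} {f : G → α} (h : FD n N f) :
    Measurable f := by
  have : f = (fun s => f (ext n N s)) ∘ res n N := by
    funext ω; exact h.eq_ext_res ω
  rw [this]
  exact (measurable_of_finite _).comp (measurable_res n N)

lemma FD.finite_range {α : Type*} {n N : ℕ} {f : G → α} (h : FD n N f) : (Set.range f).Finite := by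
  apply (Set.finite_range (fun s => f (ext n N s))).subset
  rintro _ ⟨ω, rfl⟩
  exact ⟨res n N ω, (h.eq_ext_res ω).symm⟩

lemma FD.integrable {n N : ℕ} {f : G → ℝ} (h : FD n N f) : Integrable f μ := by
  obtain ⟨M, hM⟩ := h.finite_range.image (fun x : ℝ => |x|) |>.bddAbove
  refine Integrable.of_bound h.measurable.aestronglyMeasurable M (Eventually.of_forall fun ω => ?_)
  rw [Real.norm_eq_abs]
  exact hM ⟨f ω, ⟨ω, rfl⟩, rfl⟩

lemma FD.measurableSet {n N : ℕ} {A : Set G} (hA : FD n N (fun ω => ω ∈ A)) : MeasurableSet A := by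
  have := hA.measurable (measurableSet_singleton True)
  have h2 : (fun ω => ω ∈ A) ⁻¹' {True} = A := by ext ω; simp
  rwa [h2] at this

lemma integral_translate (f : G → ℝ) (e : G) : ∫ ω, f (ω + e) ∂μ = ∫ ω, f ω ∂μ := by
  simp_rw [add_comm _ e]
  exact integral_add_left_eq_self f e

/-- bridge to finite averages -/
lemma FD.integral_eq {n N : ℕ} {f : G → ℝ} (h : FD n N f) :
    ∫ ω, f ω ∂μ = (∑ s : Fin n → Fin N → ZMod 2, f (ext n N s)) /
      Fintype.card (Fin n → Fin N → ZMod 2) := by
  have hc : (Fintype.card (Fin n → Fin N → ZMod 2) : ℝ) ≠ 0 := by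
    exact_mod_cast Fintype.card_ne_zero
  rw [eq_div_iff hc]
  have h1 : ∀ s : Fin n → Fin N → ZMod 2, ∫ ω, f (ω + ext n N s) ∂μ = ∫ ω, f ω ∂μ :=
    fun s => integral_translate f _
  have hint : ∀ s : Fin n → Fin N → ZMod 2, Integrable (fun ω => f (ω + ext n N s)) μ := by
    intro s
    have : FD n N (fun ω => f (ω + ext n N s)) := by
      intro ω ω' hh
      apply h
      intro k hk i hi
      simp [hh k hk i hi]
    exact this.integrable
  calc (∫ ω, f ω ∂μ) * (Fintype.card (Fin n → Fin N → ZMod 2) : ℝ)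
      = ∑ s : Fin n → Fin N → ZMod 2, ∫ ω, f (ω + ext n N s) ∂μ := by
        rw [Finset.sum_congr rfl fun s _ => h1 s]
        simp [mul_comm]
    _ = ∫ ω, ∑ s : Fin n → Fin N → ZMod 2, f (ω + ext n N s) ∂μ := by
        rw [integral_finsetSum _ fun s _ => hint s]
    _ = ∫ ω : G, ∑ s : Fin n → Fin N → ZMod 2, f (ext n N s) ∂μ := by
        congr 1
        funext ω
        have : ∀ s : Fin n → Fin N → ZMod 2, f (ω + ext n N s) = f (ext n N (res n N ω + s)) := by
          intro s
          apply h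
          intro k hk i hi
          simp only [Pi.add_apply]
          rw [ext_apply_of_lt _ hk hi, ext_apply_of_lt _ hk hi]
          rfl
        rw [Finset.sum_congr rfl fun s _ => this s]
        exact (Equiv.sum_comp (Equiv.addLeft (res n N ω)) fun s => f (ext n N s))
    _ = ∑ s : Fin n → Fin N → ZMod 2, f (ext n N s) := by simp

end Pool.Agent.Helper34.TG
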