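import Pool.Agent.Helper34.TG.Defs
import Pool.Agent.MP_b4da01_an.Smooth

/-!
Module Smooth.  A norm which is twice Gateaux differentiable at `x` satisfies a pointwise quadratic
estimate.  Proof: for fixed `h`, `N (x + t h) - N x - t φ' x h ≤ t (φ' (x + t h) - φ' x) h ≤ t² (B h h + 1)`
for small `t > 0` (convexity), the same for `-h`; Baire category for the closed symmetric sets
`A n = {h | ∀ t ∈ (0, 1/n], N (x + t h) + N (x - t h) - 2 N x ≤ n t²}`, convexity of
`h ↦ N (x + t h) + N (x - t h) - 2 N x`; for large `h` use `N (x+h) + N (x-h) - 2 N x ≤ 2 N h`.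
-/

set_option autoImplicit false

open Filter Topology

namespace Pool.Agent.Helper34.TG

universe u

theorem smooth_bound {X : Type u} [NormedAddCommGroup X] [NormedSpace ℝ X] [CompleteSpace X]
    {N : X → ℝ} (hN : IsEquivNorm N) {x : X} (hx : TwiceGateauxAt N x) :
    ∃ C : ℝ, ∀ h : X, N (x + h) + N (x - h) - 2 * N x ≤ C * ‖h‖ ^ 2 := by
  obtain ⟨C₀, hC₀, hup⟩ := hN.upper
  have hconv : ConvexOn ℝ Set.univ N := by
    refine ⟨convex_univ, fun a _ b _ s t hs ht _ => ?_⟩
    have h1 := hN.add_le (s • a) (t • b)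
    rw [hN.smul, hN.smul, abs_of_nonneg hs, abs_of_nonneg ht] at h1
    exact h1
  have hneg : ∀ v, N (-v) = N v := by
    intro v
    have := hN.smul (-1) v
    rw [neg_one_smul, abs_neg, abs_one, one_mul] at this
    exact this
  have hLip : ∀ a b, |N a - N b| ≤ C₀ * ‖a - b‖ := by
    intro a b
    rw [abs_sub_le_iff]
    constructor
    · have h1 := hN.add_le (a - b) b
      rw [sub_add_cancel] at h1
      linarith [hup (a - b)]
    · have h1 := hN.add_le (b - a) a
      rw [sub_add_cancel] at h1
      have h2 : N (b - a) = N (a - b) := by rw [← hneg, neg_sub]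
      linarith [hup (a - b)]
  apply B4da01.exists_quadratic_bound hconv hLip
  obtain ⟨dφ, B, h1, h2, h3⟩ := hx
  refine ⟨dφ, B, ?_, ?_, h3⟩
  · filter_upwards [h1] with y hy h
    refine (hy h).congr (fun t => ?_)
    rw [div_eq_inv_mul]
  · intro h k
    refine (h2 h k).congr (fun t => ?_)
    rw [one_div, ContinuousLinearMap.sub_apply]

end Pool.Agent.Helper34.TG
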