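import Pool.Agent.Helper34.TG.Final
import Pool.Agent.Helper34.TG.Block
import Pool.Agent.Helper34.TG.Smooth

/-!
Assembly: a Banach space with a twice Gateaux differentiable norm which does not contain the
`ℓ_∞^n` uniformly is superreflexive.
-/

set_option autoImplicit false

open Filter Topology

namespace Pool.Agent.Helper34.TG

universe u v

/-- a space with far-out trees is nontrivial -/
lemma HasTrees.exists_ne_zero {X : Type u} [NormedAddCommGroup X] [NormedSpace ℝ X]
    (h : HasTrees X) : ∃ x : X, x ≠ 0 := by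
  obtain ⟨d, -, -, -, -, c, hc⟩ := h 1 one_pos 1 one_pos ∅
  by_contra hcon
  push Not at hcon
  have h0 : sgn 0 = 1 := by simp [sgn]
  have h1 : sgn 1 = -1 := by simp [sgn]
  have h2 := hc (fun _ => 0)
  have h3 := hc (fun _ => 1)
  simp only [Finset.range_one, Finset.sum_singleton, h0, h1, hcon, norm_zero] at h2 h3
  linarith

/-- the seminorm `N / C` -/
noncomputable def scaledNorm {X : Type u} [NormedAddCommGroup X] [NormedSpace ℝ X] {N : X → ℝ}
    (hN : IsEquivNorm N) (C : ℝ) (hC : 0 < C) : Seminorm ℝ X :=
  Seminorm.of (fun x => N x / C)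
    (fun x y => by
      rw [← add_div]
      exact div_le_div_of_nonneg_right (hN.add_le x y) hC.le)
    (fun c x => by
      simp only [hN.smul, Real.norm_eq_abs]
      rw [mul_div_assoc])

/-- **Theorem.** Let `X` be a real Banach space which admits a twice Gateaux differentiable norm and
which does not contain the spaces `ℓ_∞^n` uniformly. Then `X` is superreflexive. -/
theorem isSuperreflexive_of_twiceGateaux {X : Type u} [NormedAddCommGroup X] [NormedSpace ℝ X]
    [CompleteSpace X] (h : AdmitsTwiceGateauxNorm X) (h2 : ¬ ContainsLinftyUniformly X) :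
    IsSuperreflexive.{u, v} X := by
  intro Y _ _ _ hfr
  by_contra hY
  have htree : HasTrees X := hasTrees_of_not_reflexive hfr hY
  obtain ⟨x₀, hx₀⟩ := htree.exists_ne_zero
  obtain ⟨N, hN, hTG⟩ := h
  obtain ⟨C, hC, hCN⟩ := hN.upper
  obtain ⟨c, hc, hcN⟩ := hN.lower
  obtain ⟨a, ha0, ha1, hB⟩ := exists_blockProp h2
  have happly : ∀ x, scaledNorm hN C hC x = N x / C := fun _ => rfl
  obtain ⟨x, hx, hbad⟩ := exists_bad_point htree (scaledNorm hN C hC)
    (fun x => by
      rw [happly, div_le_iff₀ hC, mul_comm]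
      exact hCN x)
    (c / C) (div_pos hc hC)
    (fun x => by
      rw [happly, div_mul_eq_mul_div]
      exact div_le_div_of_nonneg_right (hcN x) hC.le)
    a ha0 ha1 hB (fun h hv b hb => block_le h hv b hb) x₀ hx₀
  obtain ⟨D, hD⟩ := smooth_bound hN (hTG x hx)
  obtain ⟨d, hd⟩ := hbad (D / C)
  have h3 := hD d
  have h4 : sd (scaledNorm hN C hC) x d = (N (x + d) + N (x - d) - 2 * N x) / C := by
    unfold sd
    rw [happly, happly, happly]
    ring
  rw [h4, div_mul_eq_mul_div] at hd
  have h5 := div_le_div_of_nonneg_right h3 hC.le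
  linarith

end Pool.Agent.Helper34.TG
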