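import Pool.Agent.Helper34.TG.OneStep

/-!
Module Stage.  See section 5 of MP_b4da01_an.md.
-/

set_option autoImplicit false

open MeasureTheory Filter Topology
open scoped BigOperators

namespace Pool.Agent.Helper34.TG

universe u

variable {X : Type u} [NormedAddCommGroup X] [NormedSpace ℝ X]

/-- the invariant of the iteration inside a stage: `t` steps, `l` of them flat -/
structure StageInv (φ : Seminorm ℝ X) (a : ℝ) (x₀ : X) (h : Hist X) (Q : Finset X) (δ K ε : ℝ)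
    (t l : ℕ) (h' : Hist X) (Γ : Set G) (D' : Finset X) (τ : ℝ) (F : Finset ℕ) : Prop where
  ext : h.Ext h'
  valid : h'.Valid a
  err : ∀ ω, ∀ q ∈ Q, φ (h.T x₀ ω + q) - ε * (1 - (1 / 2) ^ t) ≤ φ (h'.T x₀ ω + q)
  cost : ∫ ω, (φ (h'.T x₀ ω) - φ (h.T x₀ ω)) ∂μ ≤ δ * (1 - (1 / 2) ^ l) + 2 * δ * μ.real Γ
  fd : FD h'.n h'.N (fun ω => ω ∈ Γ)
  le : l ≤ t
  gain : ((t : ℝ) - l) * (1 / 2) ^ (l + 2) ≤ μ.real Γ
  τpos : 0 < τ
  good : ∀ ω ∈ Γ, ∃ d ∈ D', K * ‖d‖ ^ 2 ≤ sd φ (h'.T x₀ ω) d ∧ τ ≤ sd φ (h'.T x₀ ω) d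
  sub : F ⊆ Finset.range h'.n
  card : F.card = l
  flat : ∀ k ∈ F, δ / 16 ≤ ∫ ω, ‖h'.m k (ω k)‖ ∂μ

lemma fd_integrable_seminorm (φ : Seminorm ℝ X) {n N : ℕ} {W : G → X} (hW : FD n N W) :
    Integrable (fun ω => φ (W ω)) μ := (hW.comp fun x => φ x).integrable

lemma stageInv_zero (φ : Seminorm ℝ X) (a : ℝ) (x₀ : X) (h : Hist X) (hv : h.Valid a)
    (Q : Finset X) (δ K ε : ℝ) :
    StageInv φ a x₀ h Q δ K ε 0 0 h ∅ ∅ 1 ∅ where
  ext := Hist.Ext.refl h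
  valid := hv
  err := by intro ω q _; simp
  cost := by simp
  fd := by intro ω ω' _; simp
  le := le_rfl
  gain := by simp
  τpos := one_pos
  good := by intro ω hω; exact absurd hω (Set.notMem_empty ω)
  sub := by simp
  card := rfl
  flat := by intro k hk; simp at hk

lemma stageInv_succ (htree : HasTrees X) (φ : Seminorm ℝ X) (hφ : ∀ x, φ x ≤ ‖x‖)
    (a : ℝ) (x₀ : X) (h : Hist X) (Q : Finset X) (δ K ε : ℝ) (hδ : 0 < δ) (hε : 0 < ε)
    {t l : ℕ} {h' : Hist X} {Γ : Set G} {D' : Finset X} {τ : ℝ} {F : Finset ℕ}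
    (hI : StageInv φ a x₀ h Q δ K ε t l h' Γ D' τ F) (hΓ : μ.real Γ < a) :
    ∃ (l₂ : ℕ) (h₂ : Hist X) (Γ₂ : Set G) (D₂ : Finset X) (τ₂ : ℝ) (F₂ : Finset ℕ),
      StageInv φ a x₀ h Q δ K ε (t + 1) l₂ h₂ Γ₂ D₂ τ₂ F₂ := by
  classical
  have hfdc : FD h'.n h'.N (fun ω => ω ∈ Γᶜ) := hI.fd.comp Not
  have hfdT := hI.valid.fd_T x₀
  have hg : 0 < δ * (1 / 2) ^ (l + 1) := by positivity
  have hεt : 0 < ε * (1 / 2) ^ (t + 1) := by positivity
  obtain ⟨N₁, m, hN, hcol, hsym, herr, hcost, hcase⟩ := one_step htree φ hφ h'.n h'.N (h'.T x₀)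
    hfdT Γᶜ hfdc Q δ (δ * (1 / 2) ^ (l + 1)) K (ε * (1 / 2) ^ (t + 1)) hδ hg hεt
  have hΓm : MeasurableSet Γ := hI.fd.measurableSet
  have hcompl : 1 - a ≤ μ.real Γᶜ := by
    rw [probReal_compl_eq_one_sub hΓm]; linarith
  set h₂ : Hist X := h'.snoc N₁ m Γᶜ with hh₂
  have hext : h'.Ext h₂ := h'.snoc_ext hN m Γᶜ
  have hvalid : h₂.Valid a :=
    hI.valid.snoc hN hcol hsym (hfdc.mono le_rfl hN) hcompl
  have hT : ∀ ω, h₂.T x₀ ω = h'.T x₀ ω + Γᶜ.indicator (fun ω => m (ω h'.n)) ω :=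
    fun ω => h'.snoc_T N₁ m Γᶜ x₀ ω
  have hn₂ : h₂.n = h'.n + 1 := rfl
  have hN₂ : h₂.N = N₁ := rfl
  -- error
  have herr₂ : ∀ ω, ∀ q ∈ Q, φ (h.T x₀ ω + q) - ε * (1 - (1 / 2) ^ (t + 1)) ≤ φ (h₂.T x₀ ω + q) := by
    intro ω q hq
    have h1 := hI.err ω q hq
    have h2 := herr ω q hq
    rw [hT ω]
    have h3 : ε * (1 - (1 / 2) ^ t) + ε * (1 / 2) ^ (t + 1) = ε * (1 - (1 / 2) ^ (t + 1)) := by
      ring
    linarith
  -- cost
  have hi1 : Integrable (fun ω => φ (h'.T x₀ ω)) μ := fd_integrable_seminorm φ hfdT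
  have hfd2 : FD h₂.n h₂.N (h₂.T x₀) := hvalid.fd_T x₀
  have hi2 : Integrable (fun ω => φ (h₂.T x₀ ω)) μ := fd_integrable_seminorm φ hfd2
  have hcost₂ : ∫ ω, (φ (h₂.T x₀ ω) - φ (h.T x₀ ω)) ∂μ ≤
      ∫ ω, (φ (h'.T x₀ ω) - φ (h.T x₀ ω)) ∂μ + δ * (1 / 2) ^ (l + 1) := by
    by_cases hi0 : Integrable (fun ω => φ (h.T x₀ ω)) μ
    · have h1 : ∫ ω, (φ (h₂.T x₀ ω) - φ (h'.T x₀ ω)) ∂μ ≤ δ * (1 / 2) ^ (l + 1) := by
        simp_rw [hT]; exact hcost
      rw [integral_sub hi2 hi1] at h1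
      rw [integral_sub hi2 hi0, integral_sub hi1 hi0]
      linarith
    · have h1 : ¬ Integrable (fun ω => φ (h₂.T x₀ ω) - φ (h.T x₀ ω)) μ := by
        intro hcon
        apply hi0
        have := hi2.sub hcon
        refine this.congr (Eventually.of_forall fun ω => ?_)
        simp
      have h2 : ¬ Integrable (fun ω => φ (h'.T x₀ ω) - φ (h.T x₀ ω)) μ := by
        intro hcon
        apply hi0
        have := hi1.sub hcon
        refine this.congr (Eventually.of_forall fun ω => ?_)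
        simp
      rw [integral_undef h1, integral_undef h2]
      linarith
  have hm_old : ∀ k ∈ F, δ / 16 ≤ ∫ ω, ‖h₂.m k (ω k)‖ ∂μ := by
    intro k hk
    have hk' : k < h'.n := Finset.mem_range.1 (hI.sub hk)
    rw [hext.m_eq k hk']
    exact hI.flat k hk
  have hFsub : F ⊆ Finset.range h₂.n := by
    intro k hk
    have hk' : k < h'.n := Finset.mem_range.1 (hI.sub hk)
    rw [Finset.mem_range, hn₂]; omega
  have hgood_old : ∀ ω ∈ Γ, ∃ d ∈ D', K * ‖d‖ ^ 2 ≤ sd φ (h₂.T x₀ ω) d ∧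
      τ ≤ sd φ (h₂.T x₀ ω) d := by
    intro ω hω
    have : h₂.T x₀ ω = h'.T x₀ ω := by
      rw [hT ω, Set.indicator_of_notMem (by simpa using hω), add_zero]
    rw [this]
    exact hI.good ω hω
  rcases hcase with hflat | ⟨A, DA, τA, hAsub, hAfd, hAμ, hτA, hAgood⟩
  · -- flat step
    refine ⟨l + 1, h₂, Γ, D', τ, insert h'.n F, ?_⟩
    have hnF : h'.n ∉ F := by
      intro hc
      have := Finset.mem_range.1 (hI.sub hc)
      omega
    refine
      { ext := hI.ext.trans hext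
        valid := hvalid
        err := herr₂
        cost := ?_
        fd := hI.fd.mono (Nat.le_succ _) hN
        le := Nat.succ_le_succ hI.le
        gain := ?_
        τpos := hI.τpos
        good := hgood_old
        sub := ?_
        card := by rw [Finset.card_insert_of_notMem hnF, hI.card]
        flat := ?_ }
    · have h1 := hI.cost
      have h3 : δ * (1 - (1 / 2) ^ l) + δ * (1 / 2) ^ (l + 1) = δ * (1 - (1 / 2) ^ (l + 1)) := by
        ring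
      linarith
    · have h1 := hI.gain
      have h2 : (0 : ℝ) ≤ (t : ℝ) - l := by
        have : (l : ℝ) ≤ t := by exact_mod_cast hI.le
        linarith
      have h3 : (((t + 1 : ℕ) : ℝ) - ((l + 1 : ℕ) : ℝ)) * (1 / 2) ^ (l + 1 + 2) =
          (((t : ℝ) - l) * (1 / 2) ^ (l + 2)) / 2 := by
        push_cast; ring
      rw [h3]
      have h4 : 0 ≤ ((t : ℝ) - l) * (1 / 2) ^ (l + 2) := by positivity
      linarith
    · intro k hk
      rw [Finset.mem_insert] at hk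
      rcases hk with rfl | hk
      · rw [Finset.mem_range, hn₂]; omega
      · exact hFsub hk
    · intro k hk
      rw [Finset.mem_insert] at hk
      rcases hk with rfl | hk
      · have : h₂.m h'.n = m := by simp [hh₂, Hist.snoc]
        rw [this]; exact hflat
      · exact hm_old k hk
  · -- gain step
    refine ⟨l, h₂, Γ ∪ A, D' ∪ DA, min τ τA, F, ?_⟩
    have hdisj : Disjoint Γ A := by
      rw [Set.disjoint_left]
      intro ω hω hA
      exact hAsub hA hω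
    have hAm : MeasurableSet A := hAfd.measurableSet
    have hμ : μ.real (Γ ∪ A) = μ.real Γ + μ.real A := measureReal_union hdisj hAm
    have hA2 : (1 / 2 : ℝ) ^ (l + 2) ≤ μ.real A := by
      have : δ * (1 / 2) ^ (l + 1) / (2 * δ) = (1 / 2 : ℝ) ^ (l + 2) := by
        field_simp
        ring
      rw [← this]; exact hAμ
    refine
      { ext := hI.ext.trans hext
        valid := hvalid
        err := herr₂
        cost := ?_
        fd := ?_
        le := hI.le.trans (Nat.le_succ _)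
        gain := ?_
        τpos := lt_min hI.τpos hτA
        good := ?_
        sub := hFsub
        card := hI.card
        flat := hm_old }
    · have h1 := hI.cost
      rw [hμ]
      have h2 : δ * (1 / 2) ^ (l + 1) ≤ 2 * δ * μ.real A := by
        have : δ * (1 / 2 : ℝ) ^ (l + 1) = 2 * δ * (1 / 2) ^ (l + 2) := by ring
        rw [this]
        exact mul_le_mul_of_nonneg_left hA2 (by positivity)
      linarith
    · have h1 : FD h₂.n h₂.N (fun ω => ω ∈ Γ) := hI.fd.mono (Nat.le_succ _) hN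
      have h2 : FD h₂.n h₂.N (fun ω => ω ∈ A) := hAfd
      exact h1.comp₂ h2 Or
    · rw [hμ]
      have h1 := hI.gain
      have h3 : (((t + 1 : ℕ) : ℝ) - l) * (1 / 2) ^ (l + 2) =
          ((t : ℝ) - l) * (1 / 2) ^ (l + 2) + (1 / 2) ^ (l + 2) := by
        push_cast; ring
      rw [h3]
      linarith
    · intro ω hω
      rcases hω with hω | hω
      · obtain ⟨d, hd, h1, h2⟩ := hgood_old ω hω
        exact ⟨d, Finset.mem_union_left _ hd, h1, (min_le_left _ _).trans h2⟩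
      · obtain ⟨d, hd, h1, h2⟩ := hAgood ω hω
        refine ⟨d, Finset.mem_union_right _ hd, ?_, ?_⟩
        · rw [hT ω]; exact h1
        · rw [hT ω]; exact (min_le_right _ _).trans h2

/-- Proof: iterate `one_step` with `Act = Γᶜ` (`Γ` = gained so far), `g_l = δ 2^{-l-1}`, `l` = number
of flat steps so far, error `ε 2^{-t-1}` in step `t`.  Invariants after `t` steps: cost
`≤ δ (1 - 2^{-l}) + 2 δ μ(Γ)`, `μ(Γ) ≥ (t - l) 2^{-l-2}`, error `≤ ε (1 - 2^{-t})`, a finset of `l`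
rows of flat moves with `∫ ‖m‖ ≥ δ/16` (so `l < c`, by `BlockProp` for singletons, `B` the bound of
`∫ ‖T - x₀‖ ≤ (∫ φ(T) + 3 δ) / c₀ + ‖x₀‖`).  Stop as soon as `μ(Γ) ≥ a`. -/
theorem stage (htree : HasTrees X) (φ : Seminorm ℝ X) (hφ : ∀ x, φ x ≤ ‖x‖)
    (c₀ : ℝ) (hc₀ : 0 < c₀) (hφ' : ∀ x, c₀ * ‖x‖ ≤ φ x)
    (a : ℝ) (ha0 : 0 < a) (ha1 : a < 1) (hB : BlockProp X a)
    (x₀ : X) (h : Hist X) (hv : h.Valid a) (Q : Finset X) (δ K ε : ℝ) (hδ : 0 < δ) (hε : 0 < ε) :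
    ∃ (h' : Hist X) (Γ : Set G) (D' : Finset X) (τ : ℝ), h.Ext h' ∧ h'.Valid a ∧
      (∀ ω, ∀ q ∈ Q, φ (h.T x₀ ω + q) - ε ≤ φ (h'.T x₀ ω + q)) ∧
      (∫ ω, (φ (h'.T x₀ ω) - φ (h.T x₀ ω)) ∂μ ≤ 3 * δ) ∧
      FD h'.n h'.N (fun ω => ω ∈ Γ) ∧ a ≤ μ.real Γ ∧ 0 < τ ∧
      ∀ ω ∈ Γ, ∃ d ∈ D', K * ‖d‖ ^ 2 ≤ sd φ (h'.T x₀ ω) d ∧ τ ≤ sd φ (h'.T x₀ ω) d := by
  classical
  by_contra hcon
  -- a state satisfying the invariant has cost at most `3 δ`
  have hcost3 : ∀ {t l : ℕ} {h' : Hist X} {Γ : Set G} {D' : Finset X} {τ : ℝ} {F : Finset ℕ},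
      StageInv φ a x₀ h Q δ K ε t l h' Γ D' τ F →
      ∫ ω, (φ (h'.T x₀ ω) - φ (h.T x₀ ω)) ∂μ ≤ 3 * δ := by
    intro t l h' Γ D' τ F hI
    have h1 := hI.cost
    have h2 : μ.real Γ ≤ 1 := measureReal_le_one
    have h3 : (0 : ℝ) ≤ (1 / 2) ^ l := by positivity
    have h4 : δ * (1 - (1 / 2) ^ l) ≤ δ := by nlinarith
    nlinarith
  have hloop : ∀ t : ℕ, ∃ (l : ℕ) (h' : Hist X) (Γ : Set G) (D' : Finset X) (τ : ℝ)
      (F : Finset ℕ), StageInv φ a x₀ h Q δ K ε t l h' Γ D' τ F ∧ μ.real Γ < a := by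
    intro t
    induction t with
    | zero => exact ⟨0, h, ∅, ∅, 1, ∅, stageInv_zero φ a x₀ h hv Q δ K ε, by simpa using ha0⟩
    | succ t ih =>
      obtain ⟨l, h', Γ, D', τ, F, hI, hΓ⟩ := ih
      obtain ⟨l₂, h₂, Γ₂, D₂, τ₂, F₂, hI₂⟩ :=
        stageInv_succ htree φ hφ a x₀ h Q δ K ε hδ hε hI hΓ
      refine ⟨l₂, h₂, Γ₂, D₂, τ₂, F₂, hI₂, ?_⟩
      by_contra hge
      rw [not_lt] at hge
      apply hcon
      refine ⟨h₂, Γ₂, D₂, τ₂, hI₂.ext, hI₂.valid, ?_, hcost3 hI₂, hI₂.fd, hge, hI₂.τpos, hI₂.good⟩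
      intro ω q hq
      have h1 := hI₂.err ω q hq
      have h2 : (0 : ℝ) ≤ (1 / 2) ^ (t + 1) := by positivity
      nlinarith
  -- the bound for the positions
  obtain ⟨c, hc⟩ := hB (δ / 16) ((∫ ω, φ (h.T x₀ ω) ∂μ + 3 * δ + φ x₀) / c₀) (by positivity)
  obtain ⟨l, h', Γ, D', τ, F, hI, hΓ⟩ := hloop (c + 2 ^ (c + 2))
  have hi' : Integrable (fun ω => φ (h'.T x₀ ω)) μ :=
    fd_integrable_seminorm φ (hI.valid.fd_T x₀)
  have hi0 : Integrable (fun ω => φ (h.T x₀ ω)) μ := fd_integrable_seminorm φ (hv.fd_T x₀)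
  have hfdn : FD h'.n h'.N (fun ω => ‖h'.T x₀ ω - x₀‖) :=
    (hI.valid.fd_T x₀).comp fun x => ‖x - x₀‖
  have hbound : ∫ ω, ‖h'.T x₀ ω - x₀‖ ∂μ ≤ (∫ ω, φ (h.T x₀ ω) ∂μ + 3 * δ + φ x₀) / c₀ := by
    rw [le_div_iff₀ hc₀]
    have h1 : (∫ ω, ‖h'.T x₀ ω - x₀‖ ∂μ) * c₀ = ∫ ω, c₀ * ‖h'.T x₀ ω - x₀‖ ∂μ := by
      rw [integral_const_mul, mul_comm]
    have h2 : ∫ ω, c₀ * ‖h'.T x₀ ω - x₀‖ ∂μ ≤ ∫ ω, (φ (h'.T x₀ ω) + φ x₀) ∂μ := by
      refine integral_mono (hfdn.integrable.const_mul c₀) (hi'.add (integrable_const _)) ?_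
      intro ω
      exact (hφ' _).trans (map_sub_le_add φ _ _)
    have h3 : ∫ ω, (φ (h'.T x₀ ω) + φ x₀) ∂μ = ∫ ω, φ (h'.T x₀ ω) ∂μ + φ x₀ := by
      rw [integral_add hi' (integrable_const _)]
      simp
    have h4 := hcost3 hI
    rw [integral_sub hi' hi0] at h4
    linarith
  -- fewer than `c` flat steps
  have hlc : l < c := by
    by_contra hge
    rw [not_lt] at hge
    obtain ⟨F', hF', hF'c⟩ := Finset.exists_subset_card_eq (s := F) (n := c) (by rw [hI.card]; exact hge)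
    let e : Fin c → ℕ := fun i => F'.orderEmbOfFin hF'c i
    have he : Function.Injective e := (F'.orderEmbOfFin hF'c).injective
    have heF : ∀ i, e i ∈ F := fun i => hF' (Finset.orderEmbOfFin_mem F' hF'c i)
    obtain ⟨i, hi⟩ := hc h' x₀ hI.valid hbound (fun i => {e i})
      (fun i => by
        rw [Finset.singleton_subset_iff]
        exact hI.sub (heF i))
      (fun i j hij => by
        rw [Finset.disjoint_singleton]
        exact fun h => hij (he h))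
    have h1 := hI.flat (e i) (heF i)
    simp only [Finset.sum_singleton] at hi
    linarith
  -- contradiction by counting
  have h1 := hI.gain
  have h2 : ((c + 2 ^ (c + 2) : ℕ) : ℝ) - l ≥ 2 ^ (c + 2) := by
    push_cast
    have : (l : ℝ) ≤ c := by exact_mod_cast hlc.le
    linarith
  have h3 : (1 / 2 : ℝ) ^ (c + 2) ≤ (1 / 2) ^ (l + 2) :=
    pow_le_pow_of_le_one (by norm_num) (by norm_num) (by omega)
  have h4 : (2 : ℝ) ^ (c + 2) * (1 / 2) ^ (c + 2) = 1 := by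
    rw [← mul_pow]; norm_num
  have h5 : (1 : ℝ) ≤ (((c + 2 ^ (c + 2) : ℕ) : ℝ) - l) * (1 / 2) ^ (l + 2) := by
    have h6 : (0 : ℝ) ≤ 2 ^ (c + 2) := by positivity
    calc (1 : ℝ) = (2 : ℝ) ^ (c + 2) * (1 / 2) ^ (c + 2) := h4.symm
      _ ≤ _ := mul_le_mul h2 h3 (by positivity) (by linarith)
  linarith

end Pool.Agent.Helper34.TG
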