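import Pool.Agent.Helper34.TG.Prob
import Pool.Agent.Helper85.TG.Walk

/-!
Module Tree.  Walsh-Paley martingales with small increments and large final norm, nearly
annihilated by finitely many given functionals.
-/

set_option autoImplicit false

open Filter Topology

namespace Pool.Agent.Helper34.TG

universe u v

/-- adding one to coin `0` -/
def flip0 (s : ℕ → ZMod 2) : ℕ → ZMod 2 := fun i => if i = 0 then s 0 + 1 else s i

/-- `X` has far-out trees: `d l s` is the increment direction at time `l`, it depends on the coins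
`0, …, l`; the increment is `sgn (s (l + 1)) • d l s`. -/
def HasTrees (X : Type u) [NormedAddCommGroup X] [NormedSpace ℝ X] : Prop :=
  ∀ N : ℕ, 0 < N → ∀ ε : ℝ, 0 < ε → ∀ Ψ : Finset (X →L[ℝ] ℝ),
    ∃ d : ℕ → (ℕ → ZMod 2) → X,
      (∀ l, ∀ s s' : ℕ → ZMod 2, (∀ i ≤ l, s i = s' i) → d l s = d l s') ∧
      (∀ l s, ‖d l s‖ ≤ 1 / N) ∧
      (∀ l s, d l (flip0 s) = - d l s) ∧
      (∀ i ≤ N, ∀ s, ∀ ψ ∈ Ψ, |ψ (∑ l ∈ Finset.range i, sgn (s (l + 1)) • d l s)| ≤ ε) ∧
      (∃ c : ℝ, ∀ s, 1 / 16 + c * ∑ l ∈ Finset.range N, sgn (s (l + 1)) ≤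
        ‖∑ l ∈ Finset.range N, sgn (s (l + 1)) • d l s‖)

open Pool.Agent.MPb4da01 in
lemma finRep_of {X : Type u} [NormedAddCommGroup X] [NormedSpace ℝ X]
    {Y : Type v} [NormedAddCommGroup Y] [NormedSpace ℝ Y]
    (hfr : FinitelyRepresentable Y X) : FinRep Y X := by
  intro E hE ε hε
  obtain ⟨T, hT⟩ := hfr E hE ε hε
  refine ⟨T, fun e => ⟨?_, (hT e).2⟩⟩
  have h1 := (hT e).1
  have h2 : 0 ≤ ε * ‖e‖ := mul_nonneg hε.le (norm_nonneg _)
  linarith

/-- the bits of a coin sequence, shifted by one -/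
def bitsOf (s : ℕ → ZMod 2) : ℕ → Bool := fun i => decide (s (i + 1) = 0)

lemma bsgn_bitsOf (s : ℕ → ZMod 2) (i : ℕ) :
    Pool.Agent.MPb4da01.bsgn (bitsOf s i) = sgn (s (i + 1)) := by
  unfold Pool.Agent.MPb4da01.bsgn bitsOf sgn
  by_cases h : s (i + 1) = 0 <;> simp [h]

/-- Proof: section 3 of MP_b4da01_an.md; see `Pool.Agent.MPb4da01.james_tree`.  The tree is
multiplied by the sign of coin `0`; step `l` uses coin `l + 1`, so `d l` depends on the coins
`0, …, l`. -/
theorem hasTrees_of_not_reflexive {X : Type u} [NormedAddCommGroup X] [NormedSpace ℝ X]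
    {Y : Type v} [NormedAddCommGroup Y] [NormedSpace ℝ Y] [CompleteSpace Y]
    (hfr : FinitelyRepresentable Y X) (hY : ¬ IsReflexive Y) : HasTrees X := by
  classical
  intro N hN ε hε Ψ
  obtain ⟨d, hd1, hd2, hd3, hd4⟩ :=
    Pool.Agent.MPb4da01.james_tree (finRep_of hfr) hY N hN hε Ψ
  have hNpos : (0 : ℝ) < N := by exact_mod_cast hN
  let d' : ℕ → (ℕ → ZMod 2) → X := fun l s => if l < N then sgn (s 0) • d l (bitsOf s) else 0
  have hsum : ∀ i ≤ N, ∀ s : ℕ → ZMod 2, ∑ l ∈ Finset.range i, sgn (s (l + 1)) • d' l s =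
      sgn (s 0) • Pool.Agent.MPb4da01.walk d i (bitsOf s) := by
    intro i hi s
    unfold Pool.Agent.MPb4da01.walk
    rw [Finset.smul_sum]
    refine Finset.sum_congr rfl fun l hl => ?_
    rw [Finset.mem_range] at hl
    have hlN : l < N := by omega
    simp only [d', if_pos hlN]
    rw [bsgn_bitsOf, smul_comm]
  refine ⟨d', ?_, ?_, ?_, ?_, ?_⟩
  · intro l s s' h
    simp only [d']
    split_ifs
    · rw [h 0 (Nat.zero_le _)]
      congr 1
      refine hd1 l _ _ fun i hi => ?_
      simp only [bitsOf]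
      rw [h (i + 1) (by omega)]
    · rfl
  · intro l s
    simp only [d']
    split_ifs with hl
    · rw [norm_smul, Real.norm_eq_abs, abs_sgn, one_mul]
      exact hd2 l hl _
    · rw [norm_zero]
      positivity
  · intro l s
    have h1 : bitsOf (flip0 s) = bitsOf s := by
      funext i
      simp [bitsOf, flip0]
    have h2 : sgn (flip0 s 0) = - sgn (s 0) := by
      simp only [flip0, if_true]
      exact sgn_add_one _
    simp only [d']
    split_ifs
    · rw [h1, h2, neg_smul]
    · simp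
  · intro i hi s ψ hψ
    rw [hsum i hi s, map_smul, smul_eq_mul, abs_mul, abs_sgn, one_mul]
    exact hd3 i hi _ ψ hψ
  · refine ⟨1 / (8 * N), fun s => ?_⟩
    rw [hsum N le_rfl s, norm_smul, Real.norm_eq_abs, abs_sgn, one_mul]
    refine le_trans ?_ (hd4 (bitsOf s))
    have h1 : (((Finset.range N).filter fun i => bitsOf s i = true).card : ℝ) =
        N / 2 + (1 / 2) * ∑ l ∈ Finset.range N, sgn (s (l + 1)) := by
      rw [Finset.card_filter]
      push_cast
      have h2 : ∀ l ∈ Finset.range N, (if bitsOf s l = true then (1 : ℝ) else 0) =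
          1 / 2 + (1 / 2) * sgn (s (l + 1)) := by
        intro l _
        by_cases h : s (l + 1) = 0
        · simp [bitsOf, sgn, h]
          norm_num
        · simp [bitsOf, sgn, h]
      rw [Finset.sum_congr rfl h2, Finset.sum_add_distrib, ← Finset.mul_sum, Finset.sum_const,
        Finset.card_range, nsmul_eq_mul]
      ring
    rw [h1]
    have h3 : ((N : ℝ) / 2 + (1 / 2) * ∑ l ∈ Finset.range N, sgn (s (l + 1))) / (4 * N) =
        1 / 8 + 1 / (8 * N) * ∑ l ∈ Finset.range N, sgn (s (l + 1)) := by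
      field_simp
      ring
    rw [h3]
    linarith

end Pool.Agent.Helper34.TG
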